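import Pool.Agent.Lib.MP_5d404d_lc.Deg.RawD

set_option autoImplicit false

/-!
# The degrees of the instances of the reduction
-/

namespace Pool.Agent.Lib.MP_5d404d_lc

/-- The degree of the vertex `v` of an instance: the number of ends of edges at `v`. -/
def Inst.degree (I : Inst) (v : Fin I.n) : ℕ :=
  (I.edges.map Prod.fst).count v + (I.edges.map Prod.snd).count v

namespace Deg

/-- counting in a complete list without repetitions -/
theorem countP_eq_ncard {α : Type} (L : List α) (hL : ∀ a, a ∈ L) (hn : L.Nodup) (p : α → Prop)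
    [DecidablePred p] : L.countP (fun a => decide (p a)) = {a | p a}.ncard := by
  classical
  have h : {a | p a} = ((L.filter (fun a => decide (p a))).toFinset : Set α) := by
    ext a
    simp [hL a]
  rw [h, Set.ncard_coe_finset, List.toFinset_card_of_nodup (hn.filter _),
    List.countP_eq_length_filter]

variable {n m : ℕ} {φ : CNF n m} {k : ℕ}

theorem ncard_fst (w : DW n m) : {e : DE φ k | (dgr φ k).fst e = .inner w}.ncard =
    (k - dS φ w) + (k - dT φ w) + {f : DF φ | ea f = w}.ncard := by
  have h : {e : DE φ k | (dgr φ k).fst e = .inner w} =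
      (Set.range (fun c : Fin (k - dS φ w) => (GE.toS w c : DE φ k)) ∪
        Set.range (fun c : Fin (k - dT φ w) => (GE.toT w c : DE φ k))) ∪
        GE.inner '' {f : DF φ | ea f = w} := by
    ext e
    constructor
    · intro he
      have he' : (dgr φ k).fst e = .inner w := he
      cases e with
      | toS w' c =>
        have h1 : w' = w := by simpa [dgr, gr] using he'
        subst h1
        exact Or.inl (Or.inl ⟨c, rfl⟩)
      | toT w' c =>
        have h1 : w' = w := by simpa [dgr, gr] using he'
        subst h1
        exact Or.inl (Or.inr ⟨c, rfl⟩)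
      | inner f =>
        have h1 : ea f = w := by simpa [dgr, gr] using he'
        exact Or.inr ⟨f, h1, rfl⟩
    · rintro ((⟨c, rfl⟩ | ⟨c, rfl⟩) | ⟨f, hf, rfl⟩)
      · rfl
      · rfl
      · have h1 : ea f = w := hf
        show GV.inner (ea f) = .inner w
        rw [h1]
  rw [h, Set.ncard_union_eq _ (Set.toFinite _) (Set.toFinite _),
    Set.ncard_union_eq _ (Set.toFinite _) (Set.toFinite _), ← Set.image_univ, ← Set.image_univ,
    Set.ncard_image_of_injective, Set.ncard_image_of_injective, Set.ncard_image_of_injective,
    Set.ncard_univ, Set.ncard_univ, Nat.card_fin, Nat.card_fin]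
  · intro a b hab; simpa using hab
  · intro a b hab; simpa using hab
  · intro a b hab; simpa using hab
  · rw [Set.disjoint_left]
    rintro _ ⟨c, rfl⟩ ⟨c', h'⟩
    simp at h'
  · rw [Set.disjoint_left]
    rintro _ (⟨c, rfl⟩ | ⟨c, rfl⟩) ⟨f, _, h'⟩
    · simp at h'
    · simp at h'

theorem ncard_snd (w : DW n m) : {e : DE φ k | (dgr φ k).snd e = .inner w}.ncard =
    {f : DF φ | eb f = w}.ncard := by
  have h : {e : DE φ k | (dgr φ k).snd e = .inner w} = GE.inner '' {f : DF φ | eb f = w} := by
    ext e
    constructor
    · intro he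
      have he' : (dgr φ k).snd e = .inner w := he
      cases e with
      | toS w' c => simp [dgr, gr] at he'
      | toT w' c => simp [dgr, gr] at he'
      | inner f =>
        have h1 : eb f = w := by simpa [dgr, gr] using he'
        exact ⟨f, h1, rfl⟩
    · rintro ⟨f, hf, rfl⟩
      have h1 : eb f = w := hf
      show GV.inner (eb f) = .inner w
      rw [h1]
  rw [h, Set.ncard_image_of_injective]
  intro a b hab
  simpa using hab

theorem degree_redD (hk : 2 ≤ k) (φ : Formula) (v : Fin (redD k φ).n) (hs : v ≠ (redD k φ).s)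
    (ht : v ≠ (redD k φ).t) : (redD k φ).degree v = 2 * k ∨ (redD k φ).degree v = 2 * k + 1 := by
  classical
  obtain ⟨v', hv⟩ := (eV (nv φ) φ.length).surjective v
  rcases v' with _ | _ | w
  · exact absurd hv.symm hs
  · exact absurd hv.symm ht
  · have h1 : ((redD k φ).edges.map Prod.fst).count v =
        {e : DE (toCNF φ) k | (dgr (toCNF φ) k).fst e = .inner w}.ncard := by
      rw [← countP_eq_ncard (EL' (toCNF φ) k) mem_EL' (nodup_EL' _ _)
        (fun e => (dgr (toCNF φ) k).fst e = .inner w)]
      unfold redD
      rw [List.map_map, List.count_eq_countP, List.countP_map]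
      refine List.countP_congr (fun e _ => ?_)
      simp only [Function.comp_apply, beq_iff_eq, decide_eq_true_eq]
      rw [← hv]
      exact (eV (nv φ) φ.length).apply_eq_iff_eq
    have h2 : ((redD k φ).edges.map Prod.snd).count v =
        {e : DE (toCNF φ) k | (dgr (toCNF φ) k).snd e = .inner w}.ncard := by
      rw [← countP_eq_ncard (EL' (toCNF φ) k) mem_EL' (nodup_EL' _ _)
        (fun e => (dgr (toCNF φ) k).snd e = .inner w)]
      unfold redD
      rw [List.map_map, List.count_eq_countP, List.countP_map]
      refine List.countP_congr (fun e _ => ?_)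
      simp only [Function.comp_apply, beq_iff_eq, decide_eq_true_eq]
      rw [← hv]
      exact (eV (nv φ) φ.length).apply_eq_iff_eq
    obtain ⟨l, h3, h4, h5⟩ := exists_inc (φ := toCNF φ) w
    have h6 := h3.length_eq no_loop
    have h7 := dS_le (φ := toCNF φ) w
    have h8 := dT_le (φ := toCNF φ) w
    unfold Inst.degree
    rw [h1, h2, ncard_fst, ncard_snd]
    omega

theorem no_loop_dgr (φ : CNF n m) (k : ℕ) (e : DE φ k) : (dgr φ k).fst e ≠ (dgr φ k).snd e := by
  rcases e with ⟨w, c⟩ | ⟨w, c⟩ | f
  · simp [dgr, gr]
  · simp [dgr, gr]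
  · have := no_loop f
    simpa [dgr, gr] using this

end Deg

end Pool.Agent.Lib.MP_5d404d_lc
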