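import Pool.Agent.Lib.MP_5d404d_lc.Reduction

set_option autoImplicit false

/-!
# Orientations of graphs with prescribed numbers of edges to `s` and `t`

A graph is given by the inner vertices `W`, the inner edges `F` with ends `a f`, `b f`, and the
numbers `ms w`, `mt w` of edges between `s` and `w` and between `w` and `t`.  It has an
`(s,t,k)`-good orientation if and only if there is a rank function on the inner vertices such that
the orientation of the inner edges by increasing rank gives the required in- and out-degrees.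
-/

namespace Pool.Agent.Lib.MP_5d404d_lc.Deg

variable {W F : Type}

/-- The vertices of the graph. -/
inductive GV (W : Type) : Type
  | s
  | t
  | inner (w : W)

/-- The edges of the graph. -/
inductive GE (W F : Type) (ms mt : W → ℕ) : Type
  | toS (w : W) (c : Fin (ms w))
  | toT (w : W) (c : Fin (mt w))
  | inner (f : F)

/-- The graph with inner edges `a f`, `b f`, with `ms w` edges from `s` to `w` and with `mt w` edges
from `w` to `t`. -/
def gr (a b : F → W) (ms mt : W → ℕ) : MGraph (GV W) (GE W F ms mt) where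
  fst
    | .toS w _ => .inner w
    | .toT w _ => .inner w
    | .inner f => .inner (a f)
  snd
    | .toS _ _ => .s
    | .toT _ _ => .t
    | .inner f => .inner (b f)

/-- The inner edges entering `w` when the edges are directed towards the end of larger rank. -/
def InS (a b : F → W) (r : W → ℕ) (w : W) : Set F :=
  {f | (b f = w ∧ r (a f) < r w) ∨ (a f = w ∧ r (b f) < r w)}

/-- The inner edges leaving `w` when the edges are directed towards the end of larger rank. -/
def OutS (a b : F → W) (r : W → ℕ) (w : W) : Set F :=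
  {f | (b f = w ∧ r w < r (a f)) ∨ (a f = w ∧ r w < r (b f))}

/-- There is a rank function giving the required degrees. -/
def Ranked (a b : F → W) (dS dT : W → ℕ) : Prop :=
  ∃ r : W → ℕ, (∀ f, r (a f) ≠ r (b f)) ∧
    ∀ w, dS w ≤ (InS a b r w).ncard ∧ dT w ≤ (OutS a b r w).ncard

instance finGE [Finite W] [Finite F] {ms mt : W → ℕ} : Finite (GE W F ms mt) := by
  let g : GE W F ms mt → (Σ w : W, Fin (ms w)) ⊕ (Σ w : W, Fin (mt w)) ⊕ F := fun e =>
    match e with
    | .toS w c => .inl ⟨w, c⟩
    | .toT w c => .inr (.inl ⟨w, c⟩)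
    | .inner f => .inr (.inr f)
  apply Finite.of_injective g
  intro x y h
  cases x <;> cases y <;> simp_all [g]

section Forward

variable [Finite W] [Finite F] {a b : F → W} {ms mt : W → ℕ} {k : ℕ}
  {o : GE W F ms mt → Bool}

omit [Finite W] [Finite F] in
private theorem deg_head_or (o : GE W F ms mt → Bool) (e : GE W F ms mt) :
    ((gr a b ms mt).tail o e = (gr a b ms mt).fst e ∧
      (gr a b ms mt).head o e = (gr a b ms mt).snd e) ∨
    ((gr a b ms mt).tail o e = (gr a b ms mt).snd e ∧
      (gr a b ms mt).head o e = (gr a b ms mt).fst e) := by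
  unfold MGraph.tail MGraph.head
  cases o e <;> simp


omit [Finite W] [Finite F] in
private theorem deg_toS (hk : 0 < k) (ho : IsGood (gr a b ms mt) .s .t k o) (w : W)
    (c : Fin (ms w)) :
    (gr a b ms mt).tail o (.toS w c) = .s ∧ (gr a b ms mt).head o (.toS w c) = .inner w := by
  rcases deg_head_or (a := a) (b := b) o (.toS w c) with h | h
  · exfalso
    have h1 := transGen_of_paths hk (u := GV.s) (v := GV.inner w) (by simp)
      (ho.2 (.inner w) (by simp) (by simp)).1
    exact ho.1 .s (h1.tail ⟨_, h.1, h.2⟩)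
  · exact h


omit [Finite W] [Finite F] in
private theorem deg_toT (hk : 0 < k) (ho : IsGood (gr a b ms mt) .s .t k o) (w : W)
    (c : Fin (mt w)) :
    (gr a b ms mt).tail o (.toT w c) = .inner w ∧ (gr a b ms mt).head o (.toT w c) = .t := by
  rcases deg_head_or (a := a) (b := b) o (.toT w c) with h | h
  · exact h
  · exfalso
    have h1 := transGen_of_paths hk (u := GV.inner w) (v := GV.t) (by simp)
      (ho.2 (.inner w) (by simp) (by simp)).2
    exact ho.1 .t (.head ⟨_, h.1, h.2⟩ h1)

private theorem deg_in_bound (hk : 0 < k) (ho : IsGood (gr a b ms mt) .s .t k o) (w : W) :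
    k ≤ ms w + {f | (gr a b ms mt).head o (.inner f) = .inner w}.ncard := by
  have h1 := le_indegree (s := GV.s) (v := GV.inner w) (by simp)
    (ho.2 (.inner w) (by simp) (by simp)).1
  have h2 : {e | (gr a b ms mt).head o e = .inner w} ⊆
      Set.range (fun c : Fin (ms w) => (GE.toS w c : GE W F ms mt)) ∪
        GE.inner '' {f | (gr a b ms mt).head o (.inner f) = .inner w} := by
    intro e he
    have he' : (gr a b ms mt).head o e = .inner w := he
    cases e with
    | toS w' c =>
      left
      rw [(deg_toS hk ho w' c).2] at he'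
      simp only [GV.inner.injEq] at he'
      subst he'
      exact ⟨c, rfl⟩
    | toT w' c =>
      rw [(deg_toT hk ho w' c).2] at he'
      exact absurd he' (by simp)
    | inner f => right; exact ⟨f, he', rfl⟩
  have h3 := Set.ncard_le_ncard h2 (Set.toFinite _)
  have h4 := Set.ncard_union_le
    (Set.range (fun c : Fin (ms w) => (GE.toS w c : GE W F ms mt)))
    (GE.inner '' {f | (gr a b ms mt).head o (.inner f) = .inner w})
  have h5 : (Set.range (fun c : Fin (ms w) => (GE.toS w c : GE W F ms mt))).ncard ≤ ms w := by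
    rw [← Set.image_univ]
    refine (Set.ncard_image_le (Set.toFinite _)).trans ?_
    rw [Set.ncard_univ, Nat.card_fin]
  have h6 := Set.ncard_image_le (f := (GE.inner : F → GE W F ms mt))
    (Set.toFinite {f | (gr a b ms mt).head o (.inner f) = .inner w})
  omega

private theorem deg_out_bound (hk : 0 < k) (ho : IsGood (gr a b ms mt) .s .t k o) (w : W) :
    k ≤ mt w + {f | (gr a b ms mt).tail o (.inner f) = .inner w}.ncard := by
  have h1 := le_outdegree (t := GV.t) (v := GV.inner w) (by simp)
    (ho.2 (.inner w) (by simp) (by simp)).2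
  have h2 : {e | (gr a b ms mt).tail o e = .inner w} ⊆
      Set.range (fun c : Fin (mt w) => (GE.toT w c : GE W F ms mt)) ∪
        GE.inner '' {f | (gr a b ms mt).tail o (.inner f) = .inner w} := by
    intro e he
    have he' : (gr a b ms mt).tail o e = .inner w := he
    cases e with
    | toS w' c =>
      rw [(deg_toS hk ho w' c).1] at he'
      exact absurd he' (by simp)
    | toT w' c =>
      left
      rw [(deg_toT hk ho w' c).1] at he'
      simp only [GV.inner.injEq] at he'
      subst he'
      exact ⟨c, rfl⟩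
    | inner f => right; exact ⟨f, he', rfl⟩
  have h3 := Set.ncard_le_ncard h2 (Set.toFinite _)
  have h4 := Set.ncard_union_le
    (Set.range (fun c : Fin (mt w) => (GE.toT w c : GE W F ms mt)))
    (GE.inner '' {f | (gr a b ms mt).tail o (.inner f) = .inner w})
  have h5 : (Set.range (fun c : Fin (mt w) => (GE.toT w c : GE W F ms mt))).ncard ≤ mt w := by
    rw [← Set.image_univ]
    refine (Set.ncard_image_le (Set.toFinite _)).trans ?_
    rw [Set.ncard_univ, Nat.card_fin]
  have h6 := Set.ncard_image_le (f := (GE.inner : F → GE W F ms mt))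
    (Set.toFinite {f | (gr a b ms mt).tail o (.inner f) = .inner w})
  omega

/-- From a good orientation to a rank function. -/
theorem ranked_of_acycST {dS dT : W → ℕ} (hk : 0 < k)
    (hS : ∀ w, ms w + dS w = k) (hT : ∀ w, mt w + dT w = k)
    (h : AcycST (gr a b ms mt) .s .t k) : Ranked a b dS dT := by
  obtain ⟨o, ho⟩ := h
  let R : W → W → Prop := fun v w => Relation.TransGen
    (Arc ((gr a b ms mt).tail o) ((gr a b ms mt).head o)) (GV.inner v) (GV.inner w)
  let r : W → ℕ := fun w => {v | R v w}.ncard
  have hr : ∀ v w, R v w → r v < r w := by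
    intro v w hvw
    apply Set.ncard_lt_ncard _ (Set.toFinite _)
    refine ⟨fun u hu => ?_, fun hsub => ?_⟩
    · exact Relation.TransGen.trans (show R u v from hu) hvw
    · exact ho.1 _ (show R v v from hsub hvw)
  have hcase : ∀ f : F, ((gr a b ms mt).tail o (.inner f) = .inner (a f) ∧
      (gr a b ms mt).head o (.inner f) = .inner (b f) ∧ r (a f) < r (b f)) ∨
      ((gr a b ms mt).tail o (.inner f) = .inner (b f) ∧
      (gr a b ms mt).head o (.inner f) = .inner (a f) ∧ r (b f) < r (a f)) := by
    intro f
    rcases deg_head_or (a := a) (b := b) o (.inner f) with h1 | h1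
    · exact Or.inl ⟨h1.1, h1.2, hr _ _ (.single ⟨_, h1.1, h1.2⟩)⟩
    · exact Or.inr ⟨h1.1, h1.2, hr _ _ (.single ⟨_, h1.1, h1.2⟩)⟩
  refine ⟨r, fun f => ?_, fun w => ⟨?_, ?_⟩⟩
  · rcases hcase f with h1 | h1
    · exact h1.2.2.ne
    · exact h1.2.2.ne'
  · have h1 := deg_in_bound hk ho w
    have h2 : {f | (gr a b ms mt).head o (.inner f) = .inner w} ⊆ InS a b r w := by
      intro f hf
      have hf' : (gr a b ms mt).head o (.inner f) = .inner w := hf
      rcases hcase f with ⟨_, h3, h4⟩ | ⟨_, h3, h4⟩
      · rw [h3] at hf'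
        have h5 : b f = w := by simpa using hf'
        exact Or.inl ⟨h5, h5 ▸ h4⟩
      · rw [h3] at hf'
        have h5 : a f = w := by simpa using hf'
        exact Or.inr ⟨h5, h5 ▸ h4⟩
    have h3 := Set.ncard_le_ncard h2 (Set.toFinite _)
    have h4 := hS w
    omega
  · have h1 := deg_out_bound hk ho w
    have h2 : {f | (gr a b ms mt).tail o (.inner f) = .inner w} ⊆ OutS a b r w := by
      intro f hf
      have hf' : (gr a b ms mt).tail o (.inner f) = .inner w := hf
      rcases hcase f with ⟨h3, _, h4⟩ | ⟨h3, _, h4⟩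
      · rw [h3] at hf'
        have h5 : a f = w := by simpa using hf'
        exact Or.inr ⟨h5, h5 ▸ h4⟩
      · rw [h3] at hf'
        have h5 : b f = w := by simpa using hf'
        exact Or.inl ⟨h5, h5 ▸ h4⟩
    have h3 := Set.ncard_le_ncard h2 (Set.toFinite _)
    have h4 := hT w
    omega

end Forward

section Backward

variable [Finite W] [Finite F] {a b : F → W} {ms mt : W → ℕ} {k : ℕ}

/-- rank of a vertex -/
private def deg_rk (r : W → ℕ) (M : ℕ) : GV W → ℕ
  | .s => 0
  | .t => M + 2
  | .inner w => r w + 1

/-- From a rank function to a good orientation. -/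
theorem acycST_of_ranked {dS dT : W → ℕ}
    (hS : ∀ w, ms w + dS w = k) (hT : ∀ w, mt w + dT w = k)
    (h : Ranked a b dS dT) : AcycST (gr a b ms mt) .s .t k := by
  classical
  obtain ⟨r, hr1, hr2⟩ := h
  obtain ⟨M, hM⟩ : ∃ M, ∀ w, r w ≤ M := by
    obtain ⟨M, hM⟩ := (Set.finite_range r).bddAbove
    exact ⟨M, fun w => hM ⟨w, rfl⟩⟩
  let f : GV W → ℕ := deg_rk r M
  let G := gr a b ms mt
  let o : GE W F ms mt → Bool := fun e => decide (f (G.fst e) < f (G.snd e))
  have hne : ∀ e, f (G.fst e) ≠ f (G.snd e) := by
    intro e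
    cases e with
    | toS w c => simp [G, gr, f, deg_rk]
    | toT w c =>
      have := hM w
      simp only [G, gr, f, deg_rk]
      omega
    | inner e =>
      have := hr1 e
      simp only [G, gr, f, deg_rk]
      omega
  have hlt : ∀ e, f (G.fst e) < f (G.snd e) → G.tail o e = G.fst e ∧ G.head o e = G.snd e := by
    intro e he
    simp [MGraph.tail, MGraph.head, o, he]
  have hgt : ∀ e, f (G.snd e) < f (G.fst e) → G.tail o e = G.snd e ∧ G.head o e = G.fst e := by
    intro e he
    have : ¬ f (G.fst e) < f (G.snd e) := by omega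
    simp [MGraph.tail, MGraph.head, o, this]
  have hrk : ∀ e, f (G.tail o e) < f (G.head o e) := by
    intro e
    rcases lt_or_gt_of_ne (hne e) with h1 | h1
    · rw [(hlt e h1).1, (hlt e h1).2]; exact h1
    · rw [(hgt e h1).1, (hgt e h1).2]; exact h1
  have htoS : ∀ (w : W) (c : Fin (ms w)), G.tail o (.toS w c) = .s ∧
      G.head o (.toS w c) = .inner w := by
    intro w c
    exact hgt (.toS w c) (by simp [G, gr, f, deg_rk])
  have htoT : ∀ (w : W) (c : Fin (mt w)), G.tail o (.toT w c) = .inner w ∧
      G.head o (.toT w c) = .t := by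
    intro w c
    exact hlt (.toT w c) (by have := hM w; simp only [G, gr, f, deg_rk]; omega)
  have hfin : ∀ e : F, r (a e) < r (b e) → G.tail o (.inner e) = .inner (a e) ∧
      G.head o (.inner e) = .inner (b e) := by
    intro e he
    exact hlt (.inner e) (by simp only [G, gr, f, deg_rk]; omega)
  have hfin' : ∀ e : F, r (b e) < r (a e) → G.tail o (.inner e) = .inner (b e) ∧
      G.head o (.inner e) = .inner (a e) := by
    intro e he
    exact hgt (.inner e) (by simp only [G, gr, f, deg_rk]; omega)
  have hdegin : ∀ w : W, k ≤ {e | G.head o e = .inner w}.ncard := by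
    intro w
    have h1 : Set.range (fun c : Fin (ms w) => (GE.toS w c : GE W F ms mt)) ∪
        GE.inner '' (InS a b r w) ⊆ {e | G.head o e = .inner w} := by
      rintro e (⟨c, rfl⟩ | ⟨e, he, rfl⟩)
      · exact (htoS w c).2
      · rcases he with ⟨h3, h4⟩ | ⟨h3, h4⟩
        · have := (hfin e (h3 ▸ h4)).2
          rw [h3] at this
          exact this
        · have := (hfin' e (h3 ▸ h4)).2
          rw [h3] at this
          exact this
    have h2 := Set.ncard_le_ncard h1 (Set.toFinite _)
    rw [Set.ncard_union_eq _ (Set.toFinite _) (Set.toFinite _), ← Set.image_univ,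
      Set.ncard_image_of_injective, Set.ncard_image_of_injective, Set.ncard_univ,
      Nat.card_fin] at h2
    · have h3 := hS w
      have h4 := (hr2 w).1
      omega
    · intro x y hxy; simpa using hxy
    · intro x y hxy; simpa using hxy
    · rw [Set.disjoint_left]
      rintro _ ⟨c, rfl⟩ ⟨e, _, he⟩
      simp at he
  have hdegout : ∀ w : W, k ≤ {e | G.tail o e = .inner w}.ncard := by
    intro w
    have h1 : Set.range (fun c : Fin (mt w) => (GE.toT w c : GE W F ms mt)) ∪
        GE.inner '' (OutS a b r w) ⊆ {e | G.tail o e = .inner w} := by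
      rintro e (⟨c, rfl⟩ | ⟨e, he, rfl⟩)
      · exact (htoT w c).1
      · rcases he with ⟨h3, h4⟩ | ⟨h3, h4⟩
        · have := (hfin' e (h3 ▸ h4)).1
          rw [h3] at this
          exact this
        · have := (hfin e (h3 ▸ h4)).1
          rw [h3] at this
          exact this
    have h2 := Set.ncard_le_ncard h1 (Set.toFinite _)
    rw [Set.ncard_union_eq _ (Set.toFinite _) (Set.toFinite _), ← Set.image_univ,
      Set.ncard_image_of_injective, Set.ncard_image_of_injective, Set.ncard_univ,
      Nat.card_fin] at h2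
    · have h3 := hT w
      have h4 := (hr2 w).2
      omega
    · intro x y hxy; simpa using hxy
    · intro x y hxy; simpa using hxy
    · rw [Set.disjoint_left]
      rintro _ ⟨c, rfl⟩ ⟨e, _, he⟩
      simp at he
  have hbound : ∀ v : GV W, f v ≤ M + 2 := by
    rintro (_ | _ | w)
    · simp [f, deg_rk]
    · simp [f, deg_rk]
    · have := hM w
      simp only [f, deg_rk]; omega
  refine ⟨o, acyclic_of_rank hrk, fun v hvs hvt => ⟨?_, ?_⟩⟩
  · refine edgeDisjointPaths_of_degree _ _ f hrk .s (fun v => v ≠ .s ∧ v ≠ .t) k ?_ ?_ v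
      ⟨hvs, hvt⟩
    · rintro (_ | _ | w) ⟨h1, h2⟩
      · exact absurd rfl h1
      · exact absurd rfl h2
      · exact hdegin w
    · intro e _
      by_cases h1 : G.tail o e = .s
      · exact Or.inl h1
      · refine Or.inr ⟨h1, fun h2 => ?_⟩
        have h3 := hrk e
        rw [h2] at h3
        have h4 := hbound (G.head o e)
        have h5 : f GV.t = M + 2 := rfl
        omega
  · refine edgeDisjointPaths_of_degree' _ _ f hrk (M + 2) hbound .t
      (fun v => v ≠ .s ∧ v ≠ .t) k ?_ ?_ v ⟨hvs, hvt⟩
    · rintro (_ | _ | w) ⟨h1, h2⟩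
      · exact absurd rfl h1
      · exact absurd rfl h2
      · exact hdegout w
    · intro e _
      by_cases h1 : G.head o e = .t
      · exact Or.inl h1
      · refine Or.inr ⟨fun h2 => ?_, h1⟩
        have h3 := hrk e
        rw [h2] at h3
        have h5 : f GV.s = 0 := rfl
        omega

end Backward

/-- **Good orientations and rank functions.** -/
theorem acycST_iff_ranked [Finite W] [Finite F] {a b : F → W} {ms mt : W → ℕ} {k : ℕ}
    {dS dT : W → ℕ} (hk : 0 < k)
    (hS : ∀ w, ms w + dS w = k) (hT : ∀ w, mt w + dT w = k) :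
    AcycST (gr a b ms mt) .s .t k ↔ Ranked a b dS dT :=
  ⟨ranked_of_acycST hk hS hT, acycST_of_ranked hS hT⟩

/-! ### Lists of incident edges -/

/-- `l` lists the inner edges at the inner vertex `w`, together with their other ends. -/
structure IncAt (a b : F → W) (w : W) (l : List (F × W)) : Prop where
  nodup : (l.map Prod.fst).Nodup
  mem : ∀ f, (a f = w ∨ b f = w) → f ∈ l.map Prod.fst
  ends : ∀ x ∈ l, (a x.1 = w ∧ b x.1 = x.2) ∨ (b x.1 = w ∧ a x.1 = x.2)

theorem IncAt.ncard_in {a b : F → W} {w : W} {l : List (F × W)} (h : IncAt a b w l)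
    (r : W → ℕ) : (InS a b r w).ncard = l.countP (fun x => decide (r x.2 < r w)) := by
  classical
  have h1 : InS a b r w =
      (((l.filter (fun x => decide (r x.2 < r w))).map Prod.fst).toFinset : Set F) := by
    ext f
    simp only [InS, Set.mem_ofPred_eq, List.coe_toFinset, List.mem_map, List.mem_filter,
      decide_eq_true_eq]
    constructor
    · intro hf
      have h2 : f ∈ l.map Prod.fst := h.mem f (by tauto)
      obtain ⟨x, hx, rfl⟩ := List.mem_map.mp h2
      refine ⟨x, ⟨hx, ?_⟩, rfl⟩
      rcases h.ends x hx with ⟨h3, h4⟩ | ⟨h3, h4⟩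
      · rcases hf with ⟨h5, h6⟩ | ⟨h5, h6⟩
        · rw [← h4, h5]
          rw [h3] at h6
          exact h6
        · rwa [h4] at h6
      · rcases hf with ⟨h5, h6⟩ | ⟨h5, h6⟩
        · rwa [h4] at h6
        · rw [← h4, h5]
          rw [h3] at h6
          exact h6
    · rintro ⟨x, ⟨hx, h2⟩, rfl⟩
      rcases h.ends x hx with ⟨h3, h4⟩ | ⟨h3, h4⟩
      · exact Or.inr ⟨h3, by rw [h4]; exact h2⟩
      · exact Or.inl ⟨h3, by rw [h4]; exact h2⟩
  rw [h1, Set.ncard_coe_finset, List.toFinset_card_of_nodup, List.length_map,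
    List.countP_eq_length_filter]
  exact h.nodup.sublist (List.Sublist.map _ List.filter_sublist)

theorem IncAt.ncard_out {a b : F → W} {w : W} {l : List (F × W)} (h : IncAt a b w l)
    (r : W → ℕ) : (OutS a b r w).ncard = l.countP (fun x => decide (r w < r x.2)) := by
  classical
  have h1 : OutS a b r w =
      (((l.filter (fun x => decide (r w < r x.2))).map Prod.fst).toFinset : Set F) := by
    ext f
    simp only [OutS, Set.mem_ofPred_eq, List.coe_toFinset, List.mem_map, List.mem_filter,
      decide_eq_true_eq]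
    constructor
    · intro hf
      have h2 : f ∈ l.map Prod.fst := h.mem f (by tauto)
      obtain ⟨x, hx, rfl⟩ := List.mem_map.mp h2
      refine ⟨x, ⟨hx, ?_⟩, rfl⟩
      rcases h.ends x hx with ⟨h3, h4⟩ | ⟨h3, h4⟩
      · rcases hf with ⟨h5, h6⟩ | ⟨h5, h6⟩
        · rw [← h4, h5]
          rw [h3] at h6
          exact h6
        · rwa [h4] at h6
      · rcases hf with ⟨h5, h6⟩ | ⟨h5, h6⟩
        · rwa [h4] at h6
        · rw [← h4, h5]
          rw [h3] at h6
          exact h6
    · rintro ⟨x, ⟨hx, h2⟩, rfl⟩
      rcases h.ends x hx with ⟨h3, h4⟩ | ⟨h3, h4⟩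
      · exact Or.inr ⟨h3, by rw [h4]; exact h2⟩
      · exact Or.inl ⟨h3, by rw [h4]; exact h2⟩
  rw [h1, Set.ncard_coe_finset, List.toFinset_card_of_nodup, List.length_map,
    List.countP_eq_length_filter]
  exact h.nodup.sublist (List.Sublist.map _ List.filter_sublist)

theorem IncAt.length_eq {a b : F → W} {w : W} {l : List (F × W)} (h : IncAt a b w l)
    (hl : ∀ f, a f ≠ b f) : {f | a f = w}.ncard + {f | b f = w}.ncard = l.length := by
  classical
  have h1 : {f | a f = w} ∪ {f | b f = w} = ((l.map Prod.fst).toFinset : Set F) := by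
    ext f
    simp only [Set.mem_union, Set.mem_ofPred_eq, List.coe_toFinset]
    constructor
    · exact h.mem f
    · intro hf
      obtain ⟨x, hx, rfl⟩ := List.mem_map.mp hf
      rcases h.ends x hx with ⟨h3, _⟩ | ⟨h3, _⟩
      · exact Or.inl h3
      · exact Or.inr h3
  have h2 : Disjoint {f | a f = w} {f | b f = w} := by
    rw [Set.disjoint_left]
    intro f h3 h4
    exact hl f (show a f = b f by rw [show a f = w from h3, show b f = w from h4])
  have hfin : ({f | a f = w} ∪ {f | b f = w}).Finite := by
    rw [h1]; exact Finset.finite_toSet _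
  rw [← Set.ncard_union_eq h2 (hfin.subset Set.subset_union_left)
    (hfin.subset Set.subset_union_right), h1, Set.ncard_coe_finset,
    List.toFinset_card_of_nodup h.nodup, List.length_map]

end Pool.Agent.Lib.MP_5d404d_lc.Deg
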