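import Pool.Agent.Lib.MP_5d404d_lc.Deg.Generic

set_option autoImplicit false

/-!
# The graph of the reduction with small degrees

For every literal `q` there is a line `D q 0 - A q 0 = D q 1 - A q 1 = D q 2 - ... - A q (m+1)`,
where `-` is an edge and `=` are two parallel edges. For every clause `j` there is a path
`P j 0 - Q j 0 - P j 1 - Q j 1 - ... - P j n - Q j n`; the node `Q j i` (`i < n`) belongs to the
literal `(i, true)` and the node `P j (i+1)` to the literal `(i, false)`. The vertices `D (i, true) 1`
and `D (i, false) 1` are joined by an edge, and `D q (j+2)` is joined to the node of the literal `q`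
in the path of the clause `j`, if `q` is a literal of this clause.
-/

namespace Pool.Agent.Lib.MP_5d404d_lc.Deg

/-- The inner vertices. -/
inductive DW (n m : ℕ) : Type
  | A (q : Fin n × Bool) (i : Fin (m + 2))
  | D (q : Fin n × Bool) (i : Fin (m + 2))
  | P (j : Fin m) (i : Fin (n + 1))
  | Q (j : Fin m) (i : Fin (n + 1))

/-- The inner edges. -/
inductive DF {n m : ℕ} (φ : CNF n m) : Type
  /-- single edges of the lines -/
  | sg (q : Fin n × Bool) (i : Fin (m + 2))
  /-- double edges of the lines -/
  | db (q : Fin n × Bool) (i : Fin (m + 1)) (c : Bool)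
  /-- edges between the two lines of a variable -/
  | lk (i : Fin n)
  /-- edges between the line of a literal and the path of a clause -/
  | tp (j : Fin m) (q : {q // q ∈ φ j})
  /-- edges of the paths of the clauses -/
  | pq (j : Fin m) (i : Fin (n + 1))
  /-- edges of the paths of the clauses -/
  | qp (j : Fin m) (i : Fin n)

variable {n m : ℕ}

/-- the node of the literal `q` in the path of the clause `j` -/
def nd (j : Fin m) (q : Fin n × Bool) : DW n m :=
  if q.2 then .Q j q.1.castSucc else .P j q.1.succ

/-- the index `j + 2` -/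
def ix2 (j : Fin m) : Fin (m + 2) := ⟨j.val + 2, by omega⟩

/-- One end of an inner edge. -/
def ea {φ : CNF n m} : DF φ → DW n m
  | .sg q i => .D q i
  | .db q i _ => .A q i.castSucc
  | .lk i => .D (i, true) 1
  | .tp j q => .D q.1 (ix2 j)
  | .pq j i => .P j i
  | .qp j i => .Q j i.castSucc

/-- The other end of an inner edge. -/
def eb {φ : CNF n m} : DF φ → DW n m
  | .sg q i => .A q i
  | .db q i _ => .D q i.succ
  | .lk i => .D (i, false) 1
  | .tp j q => nd j q.1
  | .pq j i => .Q j i
  | .qp j i => .P j i.succ

/-- `q` is a literal of the clause number `i - 2` -/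
def Tap (φ : CNF n m) (q : Fin n × Bool) (i : Fin (m + 2)) : Prop :=
  ∃ j : Fin m, ix2 j = i ∧ q ∈ φ j

instance (φ : CNF n m) (q : Fin n × Bool) (i : Fin (m + 2)) : Decidable (Tap φ q i) := by
  unfold Tap; infer_instance

/-- `k` minus the number of edges between `s` and the vertex. -/
def dS (φ : CNF n m) : DW n m → ℕ
  | .A _ i => if i.val = m + 1 then 0 else 1
  | .D q i => if i.val = 0 then 0 else if i.val = 1 ∨ Tap φ q i then 2 else 1
  | .P _ _ => 1
  | .Q _ _ => 1

/-- `k` minus the number of edges between the vertex and `t`. -/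
def dT (φ : CNF n m) : DW n m → ℕ
  | .A _ i => if i.val = m + 1 then 0 else 1
  | .D q i => if i.val = 0 then 0 else if i.val = 1 ∨ Tap φ q i then 2 else 1
  | .P _ i => if i.val = 0 then 0 else 1
  | .Q _ i => if i.val = n then 0 else 1

theorem tap_ix2 {φ : CNF n m} {q : Fin n × Bool} {j : Fin m} : Tap φ q (ix2 j) ↔ q ∈ φ j := by
  constructor
  · rintro ⟨j', h1, h2⟩
    have : j' = j := by
      have := congrArg Fin.val h1
      simp only [ix2] at this
      exact Fin.ext (by omega)
    rwa [this] at h2
  · intro h
    exact ⟨j, rfl, h⟩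

theorem dS_le {φ : CNF n m} (w : DW n m) : dS φ w ≤ 2 := by
  cases w <;> simp only [dS] <;> (try split_ifs) <;> omega

theorem dT_le {φ : CNF n m} (w : DW n m) : dT φ w ≤ 2 := by
  cases w <;> simp only [dT] <;> (try split_ifs) <;> omega

theorem no_loop {φ : CNF n m} (f : DF φ) : ea f ≠ eb f := by
  cases f with
  | sg q i => simp [ea, eb]
  | db q i c => simp [ea, eb]
  | lk i => simp [ea, eb]
  | tp j q =>
    simp only [ea, eb, nd]
    split_ifs <;> simp
  | pq j i => simp [ea, eb]
  | qp j i => simp [ea, eb]

theorem nd_ne_A (j : Fin m) (q q' : Fin n × Bool) (i : Fin (m + 2)) : nd j q ≠ .A q' i := by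
  unfold nd; split_ifs <;> simp

theorem nd_ne_D (j : Fin m) (q q' : Fin n × Bool) (i : Fin (m + 2)) : nd j q ≠ .D q' i := by
  unfold nd; split_ifs <;> simp

theorem nd_eq_P {j j' : Fin m} {q : Fin n × Bool} {i : Fin (n + 1)} :
    nd j q = .P j' i ↔ j = j' ∧ q.2 = false ∧ q.1.succ = i := by
  unfold nd
  rcases q with ⟨a, b⟩
  cases b <;> simp

theorem nd_eq_Q {j j' : Fin m} {q : Fin n × Bool} {i : Fin (n + 1)} :
    nd j q = .Q j' i ↔ j = j' ∧ q.2 = true ∧ q.1.castSucc = i := by
  unfold nd
  rcases q with ⟨a, b⟩
  cases b <;> simp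

/-! ### Incidence lists -/

section Inc

variable {φ : CNF n m}

theorem inc_A (q : Fin n × Bool) (i : Fin (m + 1)) :
    IncAt (ea (φ := φ)) eb (.A q i.castSucc)
      [(.sg q i.castSucc, .D q i.castSucc), (.db q i true, .D q i.succ),
        (.db q i false, .D q i.succ)] := by
  constructor
  · simp
  · intro f hf
    cases f with
    | sg q' i' =>
      simp only [ea, eb, reduceCtorEq, false_or, DW.A.injEq] at hf
      obtain ⟨rfl, rfl⟩ := hf
      simp
    | db q' i' c =>
      simp only [ea, eb, reduceCtorEq, or_false, DW.A.injEq, Fin.castSucc_inj] at hf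
      obtain ⟨rfl, rfl⟩ := hf
      cases c <;> simp
    | lk i' => simp [ea, eb] at hf
    | tp j q' => simp [ea, eb, nd_ne_A] at hf
    | pq j i' => simp [ea, eb] at hf
    | qp j i' => simp [ea, eb] at hf
  · intro x hx
    simp only [List.mem_cons, List.not_mem_nil, or_false] at hx
    rcases hx with rfl | rfl | rfl <;> simp [ea, eb]

theorem inc_Alast (q : Fin n × Bool) :
    IncAt (ea (φ := φ)) eb (.A q (Fin.last (m + 1)))
      [(.sg q (Fin.last (m + 1)), .D q (Fin.last (m + 1)))] := by
  constructor
  · simp
  · intro f hf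
    cases f with
    | sg q' i' =>
      simp only [ea, eb, reduceCtorEq, false_or, DW.A.injEq] at hf
      obtain ⟨rfl, rfl⟩ := hf
      simp
    | db q' i' c =>
      simp only [ea, eb, reduceCtorEq, or_false, DW.A.injEq] at hf
      have := congrArg Fin.val hf.2
      simp at this
      omega
    | lk i' => simp [ea, eb] at hf
    | tp j q' => simp [ea, eb, nd_ne_A] at hf
    | pq j i' => simp [ea, eb] at hf
    | qp j i' => simp [ea, eb] at hf
  · intro x hx
    simp only [List.mem_cons, List.not_mem_nil, or_false] at hx
    subst hx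
    simp [ea, eb]

theorem inc_D0 (q : Fin n × Bool) :
    IncAt (ea (φ := φ)) eb (.D q 0) [(.sg q 0, .A q 0)] := by
  constructor
  · simp
  · intro f hf
    cases f with
    | sg q' i' =>
      simp only [ea, eb, reduceCtorEq, or_false, DW.D.injEq] at hf
      obtain ⟨rfl, rfl⟩ := hf
      simp
    | db q' i' c =>
      simp only [ea, eb, reduceCtorEq, false_or, DW.D.injEq] at hf
      exact absurd hf.2 (Fin.succ_ne_zero _)
    | lk i' =>
      simp [ea, eb] at hf
    | tp j q' =>
      simp only [ea, eb, DW.D.injEq, nd_ne_D, or_false] at hf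
      have := congrArg Fin.val hf.2
      simp [ix2] at this
    | pq j i' => simp [ea, eb] at hf
    | qp j i' => simp [ea, eb] at hf
  · intro x hx
    simp only [List.mem_cons, List.not_mem_nil, or_false] at hx
    subst hx
    simp [ea, eb]

theorem inc_D1 (i : Fin n) (b : Bool) :
    IncAt (ea (φ := φ)) eb (.D (i, b) 1)
      [(.sg (i, b) 1, .A (i, b) 1), (.db (i, b) 0 true, .A (i, b) 0),
        (.db (i, b) 0 false, .A (i, b) 0), (.lk i, .D (i, !b) 1)] := by
  constructor
  · simp
  · intro f hf
    cases f with
    | sg q' i' =>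
      simp only [ea, eb, reduceCtorEq, or_false, DW.D.injEq] at hf
      obtain ⟨rfl, rfl⟩ := hf
      simp
    | db q' i' c =>
      simp only [ea, eb, reduceCtorEq, false_or, DW.D.injEq] at hf
      obtain ⟨rfl, h2⟩ := hf
      have h3 : i' = 0 := by
        have := congrArg Fin.val h2
        simp at this
        exact Fin.ext (by simpa using this)
      subst h3
      cases c <;> simp
    | lk i' =>
      have : i' = i := by
        rcases hf with hf | hf
        · simp only [ea, DW.D.injEq, Prod.mk.injEq] at hf
          exact hf.1.1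
        · simp only [eb, DW.D.injEq, Prod.mk.injEq] at hf
          exact hf.1.1
      subst this
      simp
    | tp j q' =>
      simp only [ea, eb, DW.D.injEq, nd_ne_D, or_false] at hf
      have := congrArg Fin.val hf.2
      simp [ix2] at this
    | pq j i' => simp [ea, eb] at hf
    | qp j i' => simp [ea, eb] at hf
  · intro x hx
    simp only [List.mem_cons, List.not_mem_nil, or_false] at hx
    rcases hx with rfl | rfl | rfl | rfl
    · simp [ea, eb]
    · simp [ea, eb]
    · simp [ea, eb]
    · cases b <;> simp [ea, eb]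

theorem inc_Dt (q : Fin n × Bool) (j : Fin m) (h : q ∈ φ j) :
    IncAt (ea (φ := φ)) eb (.D q (ix2 j))
      [(.sg q (ix2 j), .A q (ix2 j)), (.db q j.succ true, .A q j.succ.castSucc),
        (.db q j.succ false, .A q j.succ.castSucc), (.tp j ⟨q, h⟩, nd j q)] := by
  constructor
  · simp
  · intro f hf
    cases f with
    | sg q' i' =>
      simp only [ea, eb, reduceCtorEq, or_false, DW.D.injEq] at hf
      obtain ⟨rfl, rfl⟩ := hf
      simp
    | db q' i' c =>
      simp only [ea, eb, reduceCtorEq, false_or, DW.D.injEq] at hf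
      obtain ⟨rfl, h2⟩ := hf
      have h3 : i' = j.succ := by
        have := congrArg Fin.val h2
        simp [ix2] at this
        exact Fin.ext (by simpa using this)
      subst h3
      cases c <;> simp
    | lk i' =>
      exfalso
      rcases hf with hf | hf
      · simp only [ea, DW.D.injEq] at hf
        have := congrArg Fin.val hf.2
        simp [ix2] at this
      · simp only [eb, DW.D.injEq] at hf
        have := congrArg Fin.val hf.2
        simp [ix2] at this
    | tp j' q' =>
      simp only [ea, eb, DW.D.injEq, nd_ne_D, or_false] at hf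
      obtain ⟨h1, h2⟩ := hf
      have h3 : j' = j := by
        have := congrArg Fin.val h2
        simp only [ix2] at this
        exact Fin.ext (by omega)
      subst h3
      have h4 : q' = ⟨q, h⟩ := Subtype.ext h1
      subst h4
      simp
    | pq j i' => simp [ea, eb] at hf
    | qp j i' => simp [ea, eb] at hf
  · intro x hx
    simp only [List.mem_cons, List.not_mem_nil, or_false] at hx
    rcases hx with rfl | rfl | rfl | rfl
    · simp [ea, eb]
    · right
      refine ⟨?_, rfl⟩
      simp only [eb, DW.D.injEq, true_and]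
      exact Fin.ext (by simp [ix2])
    · right
      refine ⟨?_, rfl⟩
      simp only [eb, DW.D.injEq, true_and]
      exact Fin.ext (by simp [ix2])
    · simp [ea, eb]

theorem inc_Du (q : Fin n × Bool) (j : Fin m) (h : q ∉ φ j) :
    IncAt (ea (φ := φ)) eb (.D q (ix2 j))
      [(.sg q (ix2 j), .A q (ix2 j)), (.db q j.succ true, .A q j.succ.castSucc),
        (.db q j.succ false, .A q j.succ.castSucc)] := by
  constructor
  · simp
  · intro f hf
    cases f with
    | sg q' i' =>
      simp only [ea, eb, reduceCtorEq, or_false, DW.D.injEq] at hf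
      obtain ⟨rfl, rfl⟩ := hf
      simp
    | db q' i' c =>
      simp only [ea, eb, reduceCtorEq, false_or, DW.D.injEq] at hf
      obtain ⟨rfl, h2⟩ := hf
      have h3 : i' = j.succ := by
        have := congrArg Fin.val h2
        simp [ix2] at this
        exact Fin.ext (by simpa using this)
      subst h3
      cases c <;> simp
    | lk i' =>
      exfalso
      rcases hf with hf | hf
      · simp only [ea, DW.D.injEq] at hf
        have := congrArg Fin.val hf.2
        simp [ix2] at this
      · simp only [eb, DW.D.injEq] at hf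
        have := congrArg Fin.val hf.2
        simp [ix2] at this
    | tp j' q' =>
      exfalso
      simp only [ea, eb, DW.D.injEq, nd_ne_D, or_false] at hf
      obtain ⟨h1, h2⟩ := hf
      have h3 : j' = j := by
        have := congrArg Fin.val h2
        simp only [ix2] at this
        exact Fin.ext (by omega)
      subst h3
      apply h
      rw [← h1]
      exact q'.2
    | pq j i' => simp [ea, eb] at hf
    | qp j i' => simp [ea, eb] at hf
  · intro x hx
    simp only [List.mem_cons, List.not_mem_nil, or_false] at hx
    rcases hx with rfl | rfl | rfl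
    · simp [ea, eb]
    · right
      refine ⟨?_, rfl⟩
      simp only [eb, DW.D.injEq, true_and]
      exact Fin.ext (by simp [ix2])
    · right
      refine ⟨?_, rfl⟩
      simp only [eb, DW.D.injEq, true_and]
      exact Fin.ext (by simp [ix2])

theorem inc_P0 (j : Fin m) :
    IncAt (ea (φ := φ)) eb (.P j 0) [(.pq j 0, .Q j 0)] := by
  constructor
  · simp
  · intro f hf
    cases f with
    | sg q' i' => simp [ea, eb] at hf
    | db q' i' c => simp [ea, eb] at hf
    | lk i' => simp [ea, eb] at hf
    | tp j' q' =>
      simp only [ea, eb, reduceCtorEq, false_or, nd_eq_P] at hf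
      exact absurd hf.2.2 (Fin.succ_ne_zero _)
    | pq j' i' =>
      simp only [ea, eb, reduceCtorEq, or_false, DW.P.injEq] at hf
      obtain ⟨rfl, rfl⟩ := hf
      simp
    | qp j' i' =>
      simp only [ea, eb, reduceCtorEq, false_or, DW.P.injEq] at hf
      exact absurd hf.2 (Fin.succ_ne_zero _)
  · intro x hx
    simp only [List.mem_cons, List.not_mem_nil, or_false] at hx
    subst hx
    simp [ea, eb]

theorem inc_Qlast (j : Fin m) :
    IncAt (ea (φ := φ)) eb (.Q j (Fin.last n)) [(.pq j (Fin.last n), .P j (Fin.last n))] := by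
  constructor
  · simp
  · intro f hf
    cases f with
    | sg q' i' => simp [ea, eb] at hf
    | db q' i' c => simp [ea, eb] at hf
    | lk i' => simp [ea, eb] at hf
    | tp j' q' =>
      simp only [ea, eb, reduceCtorEq, false_or, nd_eq_Q] at hf
      have := congrArg Fin.val hf.2.2
      simp at this
      omega
    | pq j' i' =>
      simp only [ea, eb, reduceCtorEq, false_or, DW.Q.injEq] at hf
      obtain ⟨rfl, rfl⟩ := hf
      simp
    | qp j' i' =>
      simp only [ea, eb, reduceCtorEq, or_false, DW.Q.injEq] at hf
      have := congrArg Fin.val hf.2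
      simp at this
      omega
  · intro x hx
    simp only [List.mem_cons, List.not_mem_nil, or_false] at hx
    subst hx
    simp [ea, eb]

theorem inc_Pt (j : Fin m) (i : Fin n) (h : (i, false) ∈ φ j) :
    IncAt (ea (φ := φ)) eb (.P j i.succ)
      [(.qp j i, .Q j i.castSucc), (.pq j i.succ, .Q j i.succ),
        (.tp j ⟨(i, false), h⟩, .D (i, false) (ix2 j))] := by
  constructor
  · simp
  · intro f hf
    cases f with
    | sg q' i' => simp [ea, eb] at hf
    | db q' i' c => simp [ea, eb] at hf
    | lk i' => simp [ea, eb] at hf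
    | tp j' q' =>
      simp only [ea, eb, reduceCtorEq, false_or, nd_eq_P, Fin.succ_inj] at hf
      obtain ⟨rfl, h2, h3⟩ := hf
      have h4 : q' = ⟨(i, false), h⟩ := Subtype.ext (Prod.ext h3 h2)
      subst h4
      simp
    | pq j' i' =>
      simp only [ea, eb, reduceCtorEq, or_false, DW.P.injEq] at hf
      obtain ⟨rfl, rfl⟩ := hf
      simp
    | qp j' i' =>
      simp only [ea, eb, reduceCtorEq, false_or, DW.P.injEq, Fin.succ_inj] at hf
      obtain ⟨rfl, rfl⟩ := hf
      simp
  · intro x hx
    simp only [List.mem_cons, List.not_mem_nil, or_false] at hx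
    rcases hx with rfl | rfl | rfl
    · simp [ea, eb]
    · simp [ea, eb]
    · simp [ea, eb, nd]

theorem inc_Pu (j : Fin m) (i : Fin n) (h : (i, false) ∉ φ j) :
    IncAt (ea (φ := φ)) eb (.P j i.succ)
      [(.qp j i, .Q j i.castSucc), (.pq j i.succ, .Q j i.succ)] := by
  constructor
  · simp
  · intro f hf
    cases f with
    | sg q' i' => simp [ea, eb] at hf
    | db q' i' c => simp [ea, eb] at hf
    | lk i' => simp [ea, eb] at hf
    | tp j' q' =>
      simp only [ea, eb, reduceCtorEq, false_or, nd_eq_P, Fin.succ_inj] at hf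
      obtain ⟨rfl, h2, h3⟩ := hf
      exfalso
      apply h
      have h4 : q'.1 = (i, false) := Prod.ext h3 h2
      rw [← h4]
      exact q'.2
    | pq j' i' =>
      simp only [ea, eb, reduceCtorEq, or_false, DW.P.injEq] at hf
      obtain ⟨rfl, rfl⟩ := hf
      simp
    | qp j' i' =>
      simp only [ea, eb, reduceCtorEq, false_or, DW.P.injEq, Fin.succ_inj] at hf
      obtain ⟨rfl, rfl⟩ := hf
      simp
  · intro x hx
    simp only [List.mem_cons, List.not_mem_nil, or_false] at hx
    rcases hx with rfl | rfl
    · simp [ea, eb]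
    · simp [ea, eb]

theorem inc_Qt (j : Fin m) (i : Fin n) (h : (i, true) ∈ φ j) :
    IncAt (ea (φ := φ)) eb (.Q j i.castSucc)
      [(.pq j i.castSucc, .P j i.castSucc), (.qp j i, .P j i.succ),
        (.tp j ⟨(i, true), h⟩, .D (i, true) (ix2 j))] := by
  constructor
  · simp
  · intro f hf
    cases f with
    | sg q' i' => simp [ea, eb] at hf
    | db q' i' c => simp [ea, eb] at hf
    | lk i' => simp [ea, eb] at hf
    | tp j' q' =>
      simp only [ea, eb, reduceCtorEq, false_or, nd_eq_Q, Fin.castSucc_inj] at hf
      obtain ⟨rfl, h2, h3⟩ := hf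
      have h4 : q' = ⟨(i, true), h⟩ := Subtype.ext (Prod.ext h3 h2)
      subst h4
      simp
    | pq j' i' =>
      simp only [ea, eb, reduceCtorEq, false_or, DW.Q.injEq] at hf
      obtain ⟨rfl, rfl⟩ := hf
      simp
    | qp j' i' =>
      simp only [ea, eb, reduceCtorEq, or_false, DW.Q.injEq, Fin.castSucc_inj] at hf
      obtain ⟨rfl, rfl⟩ := hf
      simp
  · intro x hx
    simp only [List.mem_cons, List.not_mem_nil, or_false] at hx
    rcases hx with rfl | rfl | rfl
    · simp [ea, eb]
    · simp [ea, eb]
    · simp [ea, eb, nd]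

theorem inc_Qu (j : Fin m) (i : Fin n) (h : (i, true) ∉ φ j) :
    IncAt (ea (φ := φ)) eb (.Q j i.castSucc)
      [(.pq j i.castSucc, .P j i.castSucc), (.qp j i, .P j i.succ)] := by
  constructor
  · simp
  · intro f hf
    cases f with
    | sg q' i' => simp [ea, eb] at hf
    | db q' i' c => simp [ea, eb] at hf
    | lk i' => simp [ea, eb] at hf
    | tp j' q' =>
      simp only [ea, eb, reduceCtorEq, false_or, nd_eq_Q, Fin.castSucc_inj] at hf
      obtain ⟨rfl, h2, h3⟩ := hf
      exfalso
      apply h
      have h4 : q'.1 = (i, true) := Prod.ext h3 h2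
      rw [← h4]
      exact q'.2
    | pq j' i' =>
      simp only [ea, eb, reduceCtorEq, false_or, DW.Q.injEq] at hf
      obtain ⟨rfl, rfl⟩ := hf
      simp
    | qp j' i' =>
      simp only [ea, eb, reduceCtorEq, or_false, DW.Q.injEq, Fin.castSucc_inj] at hf
      obtain ⟨rfl, rfl⟩ := hf
      simp
  · intro x hx
    simp only [List.mem_cons, List.not_mem_nil, or_false] at hx
    rcases hx with rfl | rfl
    · simp [ea, eb]
    · simp [ea, eb]

end Inc

end Pool.Agent.Lib.MP_5d404d_lc.Deg
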