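import Pool.Agent.Lib.MP_5d404d_lc.Deg.Sat
import Pool.Agent.Lib.MP_5d404d_lc.EdgeList

set_option autoImplicit false

/-!
# Numbering of the vertices and the list of the edges
-/

namespace Pool.Agent.Lib.MP_5d404d_lc.Deg

variable {n m : ℕ}

/-! ### The vertices -/

/-- The inner vertices as a sum type. -/
def wEquiv (n m : ℕ) : DW n m ≃ ((Fin n × Bool) × Fin (m + 2)) ⊕ (((Fin n × Bool) × Fin (m + 2)) ⊕
    ((Fin m × Fin (n + 1)) ⊕ (Fin m × Fin (n + 1)))) where
  toFun
    | .A q i => .inl (q, i)
    | .D q i => .inr (.inl (q, i))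
    | .P j i => .inr (.inr (.inl (j, i)))
    | .Q j i => .inr (.inr (.inr (j, i)))
  invFun
    | .inl x => .A x.1 x.2
    | .inr (.inl x) => .D x.1 x.2
    | .inr (.inr (.inl x)) => .P x.1 x.2
    | .inr (.inr (.inr x)) => .Q x.1 x.2
  left_inv w := by cases w <;> rfl
  right_inv w := by rcases w with _ | _ | _ | _ <;> rfl

/-- The vertices as a sum type. -/
def gvEquiv (W : Type) : GV W ≃ Fin 2 ⊕ W where
  toFun
    | .s => .inl 0
    | .t => .inl 1
    | .inner w => .inr w
  invFun
    | .inl x => if x = 0 then .s else .t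
    | .inr w => .inner w
  left_inv v := by cases v <;> simp
  right_inv x := by
    rcases x with x | x
    · fin_cases x <;> simp
    · rfl

/-- The literals as numbers. -/
def litEquiv (n : ℕ) : Fin n × Bool ≃ Fin (n * 2) :=
  (Equiv.prodCongr (Equiv.refl _) finTwoEquiv.symm).trans finProdFinEquiv

/-- The number of vertices. -/
def NN (n m : ℕ) : ℕ := 2 + (n * 2 * (m + 2) + (n * 2 * (m + 2) + (m * (n + 1) + m * (n + 1))))

/-- The numbering of the vertices. -/
def eV (n m : ℕ) : GV (DW n m) ≃ Fin (NN n m) :=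
  (gvEquiv _).trans ((Equiv.sumCongr (Equiv.refl _) ((wEquiv n m).trans
    ((Equiv.sumCongr ((Equiv.prodCongr (litEquiv n) (Equiv.refl _)).trans finProdFinEquiv)
      ((Equiv.sumCongr ((Equiv.prodCongr (litEquiv n) (Equiv.refl _)).trans finProdFinEquiv)
        ((Equiv.sumCongr finProdFinEquiv finProdFinEquiv).trans finSumFinEquiv)).trans
          finSumFinEquiv)).trans finSumFinEquiv))).trans finSumFinEquiv)

/-- the number of a literal -/
def vL (q : ℕ × Bool) : ℕ := (if q.2 then 1 else 0) + 2 * q.1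
/-- the number of `A q i` -/
def vA (m : ℕ) (q : ℕ × Bool) (i : ℕ) : ℕ := 2 + (i + (m + 2) * vL q)
/-- the number of `D q i` -/
def vD (n m : ℕ) (q : ℕ × Bool) (i : ℕ) : ℕ := 2 + (n * 2 * (m + 2) + (i + (m + 2) * vL q))
/-- the number of `P j i` -/
def vP (n m j i : ℕ) : ℕ := 2 + (n * 2 * (m + 2) + (n * 2 * (m + 2) + (i + (n + 1) * j)))
/-- the number of `Q j i` -/
def vQ (n m j i : ℕ) : ℕ :=
  2 + (n * 2 * (m + 2) + (n * 2 * (m + 2) + (m * (n + 1) + (i + (n + 1) * j))))

theorem val_lit (q : Fin n × Bool) : (litEquiv n q : ℕ) = vL (q.1.val, q.2) := by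
  obtain ⟨i, b⟩ := q
  cases b <;> rfl

theorem eV_s : (eV n m .s : ℕ) = 0 := rfl

theorem eV_t : (eV n m .t : ℕ) = 1 := rfl

theorem eV_A (q : Fin n × Bool) (i : Fin (m + 2)) :
    (eV n m (.inner (.A q i)) : ℕ) = vA m (q.1.val, q.2) i.val := by
  unfold vA
  rw [← val_lit]
  rfl

theorem eV_D (q : Fin n × Bool) (i : Fin (m + 2)) :
    (eV n m (.inner (.D q i)) : ℕ) = vD n m (q.1.val, q.2) i.val := by
  unfold vD
  rw [← val_lit]
  rfl

theorem eV_P (j : Fin m) (i : Fin (n + 1)) :
    (eV n m (.inner (.P j i)) : ℕ) = vP n m j.val i.val := rfl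

theorem eV_Q (j : Fin m) (i : Fin (n + 1)) :
    (eV n m (.inner (.Q j i)) : ℕ) = vQ n m j.val i.val := rfl

instance finDW : Finite (DW n m) := Finite.of_equiv _ (wEquiv n m).symm

/-! ### The edges -/

variable {φ : CNF n m} {k : ℕ}

/-- The graph of the reduction. -/
def dgr (φ : CNF n m) (k : ℕ) :
    MGraph (GV (DW n m)) (GE (DW n m) (DF φ) (fun w => k - dS φ w) (fun w => k - dT φ w)) :=
  gr ea eb (fun w => k - dS φ w) (fun w => k - dT φ w)

/-- The edges of the graph. -/
abbrev DE (φ : CNF n m) (k : ℕ) : Type :=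
  GE (DW n m) (DF φ) (fun w => k - dS φ w) (fun w => k - dT φ w)

/-- the owner of an inner edge -/
def own' : DF φ → DW n m
  | .sg q i => .A q i
  | .db q i _ => .A q i.castSucc
  | .lk i => .D (i, true) 1
  | .tp j q => .D q.1 (ix2 j)
  | .pq j i => .P j i
  | .qp j i => .Q j i.castSucc

/-- the owner of an edge -/
def own : DE φ k → DW n m
  | .toS w _ => w
  | .toT w _ => w
  | .inner f => own' f

/-- the inner edges owned by a vertex -/
def ownI (φ : CNF n m) : DW n m → List (DF φ)
  | .A q i => .sg q i :: (if h : i.val < m + 1 then [.db q ⟨i.val, h⟩ true, .db q ⟨i.val, h⟩ false]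
      else [])
  | .D q i => (if i.val = 1 ∧ q.2 = true then [.lk q.1] else []) ++
      (if h : ∃ j : Fin m, j.val + 2 = i.val ∧ q ∈ φ j then
        [.tp ⟨i.val - 2, by obtain ⟨j, h1, -⟩ := h; have := j.2; omega⟩
          ⟨q, by
            obtain ⟨j, h1, h2⟩ := h
            have e : (⟨i.val - 2, by have := j.2; omega⟩ : Fin m) = j := Fin.ext (by simp; omega)
            rw [e]
            exact h2⟩] else [])
  | .P j i => [.pq j i]
  | .Q j i => if h : i.val < n then [.qp j ⟨i.val, h⟩] else []

/-- the edges owned by a vertex -/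
def ownL (φ : CNF n m) (k : ℕ) (w : DW n m) : List (DE φ k) :=
  (List.finRange (k - dS φ w)).map (GE.toS w) ++ (List.finRange (k - dT φ w)).map (GE.toT w) ++
    (ownI φ w).map GE.inner

/-- all inner vertices -/
def VL (n m : ℕ) : List (DW n m) :=
  (litList n).flatMap (fun q => (List.finRange (m + 2)).map (fun i => .A q i)) ++
  (litList n).flatMap (fun q => (List.finRange (m + 2)).map (fun i => .D q i)) ++
  (List.finRange m).flatMap (fun j => (List.finRange (n + 1)).map (fun i => .P j i)) ++
  (List.finRange m).flatMap (fun j => (List.finRange (n + 1)).map (fun i => .Q j i))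

/-- all edges -/
def EL' (φ : CNF n m) (k : ℕ) : List (DE φ k) := (VL n m).flatMap (ownL φ k)

theorem mem_VL (w : DW n m) : w ∈ VL n m := by
  unfold VL
  simp only [List.mem_append, List.mem_flatMap, List.mem_map]
  rcases w with ⟨q, i⟩ | ⟨q, i⟩ | ⟨j, i⟩ | ⟨j, i⟩
  · exact Or.inl (Or.inl (Or.inl ⟨q, mem_litList q, i, List.mem_finRange i, rfl⟩))
  · exact Or.inl (Or.inl (Or.inr ⟨q, mem_litList q, i, List.mem_finRange i, rfl⟩))
  · exact Or.inl (Or.inr ⟨j, List.mem_finRange j, i, List.mem_finRange i, rfl⟩)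
  · exact Or.inr ⟨j, List.mem_finRange j, i, List.mem_finRange i, rfl⟩

/-- a `flatMap` has no duplicates if the elements know where they come from -/
theorem nodup_flatMap_key {α β : Type} (l : List α) (hl : l.Nodup) (f : α → List β)
    (hf : ∀ a, (f a).Nodup) (κ : β → α → Prop) (hκ : ∀ a, ∀ b ∈ f a, κ b a)
    (hu : ∀ b a a', κ b a → κ b a' → a = a') : (l.flatMap f).Nodup := by
  rw [List.nodup_flatMap]
  refine ⟨fun a _ => hf a, ?_⟩
  refine hl.imp ?_
  intro a a' hne b hb hb'
  exact hne (hu b a a' (hκ a b hb) (hκ a' b hb'))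

theorem nodup_VL (n m : ℕ) : (VL n m).Nodup := by
  have hA : ((litList n).flatMap (fun q => (List.finRange (m + 2)).map
      (fun i => (.A q i : DW n m)))).Nodup := by
    refine nodup_flatMap_key _ (nodup_litList n) _ ?_ (fun w q => ∃ i, w = .A q i) ?_ ?_
    · intro q
      exact (List.nodup_finRange _).map (fun a b hab => by simpa using hab)
    · intro q w hw
      obtain ⟨i, -, rfl⟩ := List.mem_map.mp hw
      exact ⟨i, rfl⟩
    · rintro w q q' ⟨i, rfl⟩ ⟨i', h⟩
      simp only [DW.A.injEq] at h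
      exact h.1
  have hD : ((litList n).flatMap (fun q => (List.finRange (m + 2)).map
      (fun i => (.D q i : DW n m)))).Nodup := by
    refine nodup_flatMap_key _ (nodup_litList n) _ ?_ (fun w q => ∃ i, w = .D q i) ?_ ?_
    · intro q
      exact (List.nodup_finRange _).map (fun a b hab => by simpa using hab)
    · intro q w hw
      obtain ⟨i, -, rfl⟩ := List.mem_map.mp hw
      exact ⟨i, rfl⟩
    · rintro w q q' ⟨i, rfl⟩ ⟨i', h⟩
      simp only [DW.D.injEq] at h
      exact h.1
  have hP : ((List.finRange m).flatMap (fun j => (List.finRange (n + 1)).map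
      (fun i => (.P j i : DW n m)))).Nodup := by
    refine nodup_flatMap_key _ (List.nodup_finRange m) _ ?_ (fun w q => ∃ i, w = .P q i) ?_ ?_
    · intro q
      exact (List.nodup_finRange _).map (fun a b hab => by simpa using hab)
    · intro q w hw
      obtain ⟨i, -, rfl⟩ := List.mem_map.mp hw
      exact ⟨i, rfl⟩
    · rintro w q q' ⟨i, rfl⟩ ⟨i', h⟩
      simp only [DW.P.injEq] at h
      exact h.1
  have hQ : ((List.finRange m).flatMap (fun j => (List.finRange (n + 1)).map
      (fun i => (.Q j i : DW n m)))).Nodup := by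
    refine nodup_flatMap_key _ (List.nodup_finRange m) _ ?_ (fun w q => ∃ i, w = .Q q i) ?_ ?_
    · intro q
      exact (List.nodup_finRange _).map (fun a b hab => by simpa using hab)
    · intro q w hw
      obtain ⟨i, -, rfl⟩ := List.mem_map.mp hw
      exact ⟨i, rfl⟩
    · rintro w q q' ⟨i, rfl⟩ ⟨i', h⟩
      simp only [DW.Q.injEq] at h
      exact h.1
  unfold VL
  refine ((hA.append hD ?_).append hP ?_).append hQ ?_
  · intro w h1 h2
    simp only [List.mem_flatMap, List.mem_map] at h1 h2
    obtain ⟨_, _, _, _, rfl⟩ := h1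
    obtain ⟨_, _, _, _, h⟩ := h2
    simp at h
  · intro w h1 h2
    simp only [List.mem_append, List.mem_flatMap, List.mem_map] at h1 h2
    obtain ⟨_, _, _, _, rfl⟩ := h2
    rcases h1 with ⟨_, _, _, _, h⟩ | ⟨_, _, _, _, h⟩ <;> simp at h
  · intro w h1 h2
    simp only [List.mem_append, List.mem_flatMap, List.mem_map] at h1 h2
    obtain ⟨_, _, _, _, rfl⟩ := h2
    rcases h1 with (⟨_, _, _, _, h⟩ | ⟨_, _, _, _, h⟩) | ⟨_, _, _, _, h⟩ <;> simp at h

theorem mem_ownI (f : DF φ) : f ∈ ownI φ (own' f) := by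
  cases f with
  | sg q i => simp [ownI, own']
  | db q i c =>
    have := i.2
    simp only [ownI, own', Fin.val_castSucc]
    rw [dif_pos this]
    cases c <;> simp
  | lk i => simp [ownI, own']
  | tp j q =>
    simp only [ownI, own', List.mem_append]
    right
    have h : ∃ j' : Fin m, j'.val + 2 = (ix2 j).val ∧ q.1 ∈ φ j' := ⟨j, rfl, q.2⟩
    rw [dif_pos h]
    simp [ix2]
  | pq j i => simp [ownI, own']
  | qp j i =>
    have := i.2
    simp only [ownI, own', Fin.val_castSucc]
    rw [dif_pos this]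
    simp

theorem own_of_mem {f : DF φ} {w : DW n m} (h : f ∈ ownI φ w) : own' f = w := by
  rcases w with ⟨q, i⟩ | ⟨q, i⟩ | ⟨j, i⟩ | ⟨j, i⟩
  · simp only [ownI, List.mem_cons] at h
    rcases h with rfl | h
    · rfl
    · split_ifs at h with h1
      · simp only [List.mem_cons, List.not_mem_nil, or_false] at h
        rcases h with rfl | rfl
        · rfl
        · rfl
      · simp at h
  · simp only [ownI, List.mem_append] at h
    rcases h with h | h
    · split_ifs at h with h1
      · simp only [List.mem_cons, List.not_mem_nil, or_false] at h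
        subst h
        simp only [own', DW.D.injEq]
        exact ⟨Prod.ext rfl h1.2.symm, Fin.ext (by rw [Fin.val_one]; exact h1.1.symm)⟩
      · simp at h
    · split_ifs at h with h1
      · simp only [List.mem_cons, List.not_mem_nil, or_false] at h
        subst h
        simp only [own', DW.D.injEq, true_and]
        obtain ⟨j, h2, -⟩ := h1
        exact Fin.ext (by simp only [ix2]; omega)
      · simp at h
  · simp only [ownI, List.mem_cons, List.not_mem_nil, or_false] at h
    subst h
    rfl
  · simp only [ownI] at h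
    split_ifs at h with h1
    · simp only [List.mem_cons, List.not_mem_nil, or_false] at h
      subst h
      rfl
    · simp at h

theorem nodup_ownI (w : DW n m) : (ownI φ w).Nodup := by
  rcases w with ⟨q, i⟩ | ⟨q, i⟩ | ⟨j, i⟩ | ⟨j, i⟩
  · simp only [ownI]
    split_ifs <;> simp
  · simp only [ownI]
    split_ifs <;> simp
  · simp [ownI]
  · simp only [ownI]
    split_ifs <;> simp

theorem mem_EL' (e : DE φ k) : e ∈ EL' φ k := by
  unfold EL'
  rw [List.mem_flatMap]
  refine ⟨own e, mem_VL _, ?_⟩
  unfold ownL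
  simp only [List.mem_append, List.mem_map]
  rcases e with ⟨w, c⟩ | ⟨w, c⟩ | f
  · exact Or.inl (Or.inl ⟨c, List.mem_finRange c, rfl⟩)
  · exact Or.inl (Or.inr ⟨c, List.mem_finRange c, rfl⟩)
  · exact Or.inr ⟨f, mem_ownI f, rfl⟩

theorem nodup_EL' (φ : CNF n m) (k : ℕ) : (EL' φ k).Nodup := by
  unfold EL'
  refine nodup_flatMap_key _ (nodup_VL n m) _ ?_ (fun e w => own e = w) ?_ ?_
  · intro w
    unfold ownL
    refine (List.Nodup.append ?_ ?_ ?_).append ?_ ?_
    · exact (List.nodup_finRange _).map (fun a b hab => by simpa using hab)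
    · exact (List.nodup_finRange _).map (fun a b hab => by simpa using hab)
    · intro e h1 h2
      obtain ⟨_, _, rfl⟩ := List.mem_map.mp h1
      obtain ⟨_, _, h⟩ := List.mem_map.mp h2
      simp at h
    · exact (nodup_ownI w).map (fun a b hab => by simpa using hab)
    · intro e h1 h2
      obtain ⟨_, _, rfl⟩ := List.mem_map.mp h2
      rw [List.mem_append] at h1
      rcases h1 with h1 | h1
      · obtain ⟨_, _, h⟩ := List.mem_map.mp h1
        simp at h
      · obtain ⟨_, _, h⟩ := List.mem_map.mp h1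
        simp at h
  · intro w e he
    unfold ownL at he
    simp only [List.mem_append, List.mem_map] at he
    rcases he with (⟨_, _, rfl⟩ | ⟨_, _, rfl⟩) | ⟨f, hf, rfl⟩
    · rfl
    · rfl
    · exact own_of_mem hf
  · rintro e w w' rfl rfl
    rfl

instance finDF : Finite (DF φ) := by
  have : Finite (DE φ 2) := by
    apply Finite.of_surjective (fun i : Fin (EL' φ 2).length => (EL' φ 2).get i)
    intro e
    obtain ⟨i, hi⟩ := List.get_of_mem (mem_EL' e)
    exact ⟨i, hi⟩
  exact Finite.of_injective (fun f : DF φ => (GE.inner f : DE φ 2)) (fun a b hab => by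
    simpa using hab)

theorem length_EL' [Fintype (DE φ k)] : (EL' φ k).length = Fintype.card (DE φ k) := by
  classical
  rw [← List.toFinset_card_of_nodup (nodup_EL' φ k), ← Finset.card_univ]
  congr 1
  ext e
  simp [mem_EL']

end Pool.Agent.Lib.MP_5d404d_lc.Deg
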