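import Pool.Agent.Lib.MP_5d404d_lc.Deg.Lst
import Pool.Agent.Lib.MP_5d404d_lc.Raw

set_option autoImplicit false

/-!
# The reduction is computable in polynomial time
-/

namespace Pool.Agent.Lib.MP_5d404d_lc.Deg

open Pool.Agent.Lib.PolyTime

/-! ### The raw list of edges -/

/-- `c` edges between `w` and `s` (vertex `0`) -/
def rsv (c w : ℕ) : List (ℕ × ℕ) := (List.range c).map fun _ => (w, 0)

/-- `c` edges between `w` and `t` (vertex `1`) -/
def rtv (c w : ℕ) : List (ℕ × ℕ) := (List.range c).map fun _ => (w, 1)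

/-- `k` minus the number of edges to `s` or `t` -/
def cA (m i : ℕ) : ℕ := if i = m + 1 then 0 else 1

/-- `q` is a literal of the clause number `i - 2` -/
def tapq (φ : Formula) (q : ℕ × Bool) (i : ℕ) : Bool :=
  decide (2 ≤ i) && (clause φ (i - 2)).any fun l => decide (q = l)

/-- `k` minus the number of edges to `s` or `t` -/
def cD (φ : Formula) (q : ℕ × Bool) (i : ℕ) : ℕ :=
  if i = 0 then 0 else if (decide (i = 1) || tapq φ q i) = true then 2 else 1

/-- the number of the node of `q` in the path of the clause `j` -/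
def vN (n m j : ℕ) (q : ℕ × Bool) : ℕ := if q.2 = true then vQ n m j q.1 else vP n m j (q.1 + 1)

/-- the edges of `A q i` -/
def rawA (k n m : ℕ) (q : ℕ × Bool) (i : ℕ) : List (ℕ × ℕ) :=
  rsv (k - cA m i) (vA m q i) ++ rtv (k - cA m i) (vA m q i) ++
    ((vD n m q i, vA m q i) :: (if i < m + 1 then [(vA m q i, vD n m q (i + 1)),
      (vA m q i, vD n m q (i + 1))] else []))

/-- the edges of `D q i` -/
def rawD (k : ℕ) (φ : Formula) (n m : ℕ) (q : ℕ × Bool) (i : ℕ) : List (ℕ × ℕ) :=
  rsv (k - cD φ q i) (vD n m q i) ++ rtv (k - cD φ q i) (vD n m q i) ++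
    ((if (decide (i = 1) && q.2) = true then
        [(vD n m (q.1, true) 1, vD n m (q.1, false) 1)] else []) ++
      (if tapq φ q i = true then [(vD n m q i, vN n m (i - 2) q)] else []))

/-- the edges of `P j i` -/
def rawP (k n m j i : ℕ) : List (ℕ × ℕ) :=
  rsv (k - 1) (vP n m j i) ++ rtv (k - (if i = 0 then 0 else 1)) (vP n m j i) ++
    [(vP n m j i, vQ n m j i)]

/-- the edges of `Q j i` -/
def rawQ (k n m j i : ℕ) : List (ℕ × ℕ) :=
  rsv (k - 1) (vQ n m j i) ++ rtv (k - (if i = n then 0 else 1)) (vQ n m j i) ++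
    (if i < n then [(vQ n m j i, vP n m j (i + 1))] else [])

/-- all the edges -/
def rawE (k : ℕ) (φ : Formula) : List (ℕ × ℕ) :=
  (rawLits (nv φ)).flatMap (fun q => (List.range (φ.length + 2)).flatMap
      (fun i => rawA k (nv φ) φ.length q i)) ++
    (rawLits (nv φ)).flatMap (fun q => (List.range (φ.length + 2)).flatMap
      (fun i => rawD k φ (nv φ) φ.length q i)) ++
    (List.range φ.length).flatMap (fun j => (List.range (nv φ + 1)).flatMap
      (fun i => rawP k (nv φ) φ.length j i)) ++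
    (List.range φ.length).flatMap (fun j => (List.range (nv φ + 1)).flatMap
      (fun i => rawQ k (nv φ) φ.length j i))

/-! ### Comparison with the typed list -/

section Compare

variable {n m : ℕ}

/-- the numbers of the ends of an edge -/
def endsD {φ : CNF n m} {k : ℕ} (e : DE φ k) : ℕ × ℕ :=
  ((eV n m ((dgr φ k).fst e) : ℕ), (eV n m ((dgr φ k).snd e) : ℕ))

theorem map_own (φ : CNF n m) (k : ℕ) (w : DW n m) :
    (ownL φ k w).map endsD = rsv (k - dS φ w) (eV n m (.inner w) : ℕ) ++
      rtv (k - dT φ w) (eV n m (.inner w) : ℕ) ++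
      (ownI φ w).map (fun f => ((eV n m (.inner (ea f)) : ℕ), (eV n m (.inner (eb f)) : ℕ))) := by
  unfold ownL rsv rtv
  rw [List.map_append, List.map_append, List.map_map, List.map_map, List.map_map]
  congr 1
  congr 1
  · rw [← List.map_coe_finRange_eq_range, List.map_map]
    rfl
  · rw [← List.map_coe_finRange_eq_range, List.map_map]
    rfl

theorem map_A (φ : CNF n m) (k : ℕ) (q : Fin n × Bool) (i : Fin (m + 2)) :
    (ownL φ k (.A q i)).map endsD = rawA k n m (q.1.val, q.2) i.val := by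
  rw [map_own]
  unfold rawA
  rw [eV_A]
  congr 1
  simp only [ownI, List.map_cons, ea, eb, eV_A, eV_D]
  congr 1
  split_ifs with h
  · simp [ea, eb, eV_A, eV_D]
  · rfl

theorem nd_num (j : Fin m) (q : Fin n × Bool) :
    (eV n m (.inner (nd j q)) : ℕ) = vN n m j.val (q.1.val, q.2) := by
  unfold nd vN
  simp only
  split_ifs with h
  · rw [eV_Q]
    rfl
  · rw [eV_P]
    rfl

theorem tapq_iff (φ : Formula) (q : Fin (nv φ) × Bool) (i : Fin (φ.length + 2)) :
    tapq φ (q.1.val, q.2) i.val = true ↔ ∃ j : Fin φ.length, j.val + 2 = i.val ∧ q ∈ toCNF φ j := by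
  unfold tapq
  rw [Bool.and_eq_true, decide_eq_true_eq, List.any_eq_true]
  constructor
  · rintro ⟨h1, l, hl, h2⟩
    rw [decide_eq_true_eq] at h2
    have hj : i.val - 2 < φ.length := by have := i.2; omega
    refine ⟨⟨i.val - 2, hj⟩, by simp only; omega, ?_⟩
    rw [mem_toCNF, h2, ← clause_eq]
    exact hl
  · rintro ⟨j, h1, h2⟩
    refine ⟨by omega, (q.1.val, q.2), ?_, by simp⟩
    rw [mem_toCNF, ← clause_eq] at h2
    have : i.val - 2 = j.val := by omega
    rw [this]
    exact h2

theorem tapq_iff' (φ : Formula) (q : Fin (nv φ) × Bool) (i : Fin (φ.length + 2)) :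
    tapq φ (q.1.val, q.2) i.val = true ↔ Tap (toCNF φ) q i := by
  rw [tapq_iff]
  unfold Tap
  constructor
  · rintro ⟨j, h1, h2⟩
    exact ⟨j, Fin.ext h1, h2⟩
  · rintro ⟨j, h1, h2⟩
    exact ⟨j, congrArg Fin.val h1, h2⟩

theorem map_D (φ : Formula) (k : ℕ) (q : Fin (nv φ) × Bool) (i : Fin (φ.length + 2)) :
    (ownL (toCNF φ) k (.D q i)).map endsD =
      rawD k φ (nv φ) φ.length (q.1.val, q.2) i.val := by
  rw [map_own]
  unfold rawD
  rw [eV_D]
  have h1 : dS (toCNF φ) (.D q i) = cD φ (q.1.val, q.2) i.val := by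
    simp only [dS, cD, Bool.or_eq_true, decide_eq_true_eq, tapq_iff']
  have h2 : dT (toCNF φ) (.D q i) = cD φ (q.1.val, q.2) i.val := by
    simp only [dT, cD, Bool.or_eq_true, decide_eq_true_eq, tapq_iff']
  rw [h1, h2]
  congr 1
  simp only [ownI, List.map_append]
  congr 1
  · by_cases h : i.val = 1 ∧ q.2 = true
    · rw [if_pos h, if_pos (by simp [h.1, h.2])]
      simp [ea, eb, eV_D]
    · rw [if_neg h, if_neg (by simpa using h)]
      rfl
  · by_cases h : ∃ j : Fin φ.length, j.val + 2 = i.val ∧ q ∈ toCNF φ j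
    · rw [dif_pos h, if_pos ((tapq_iff φ q i).2 h)]
      obtain ⟨j, h3, h4⟩ := h
      simp only [List.map_cons, List.map_nil, ea, eb, eV_D, nd_num, ix2]
      congr 3
      omega
    · rw [dif_neg h, if_neg (fun h' => h ((tapq_iff φ q i).1 h'))]
      rfl

theorem map_P (φ : CNF n m) (k : ℕ) (j : Fin m) (i : Fin (n + 1)) :
    (ownL φ k (.P j i)).map endsD = rawP k n m j.val i.val := by
  rw [map_own]
  unfold rawP
  rw [eV_P]
  rfl

theorem map_Q (φ : CNF n m) (k : ℕ) (j : Fin m) (i : Fin (n + 1)) :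
    (ownL φ k (.Q j i)).map endsD = rawQ k n m j.val i.val := by
  rw [map_own]
  unfold rawQ
  rw [eV_Q]
  congr 1
  simp only [ownI]
  split_ifs with h
  · simp [ea, eb, eV_Q, eV_P]
  · rfl

theorem flatMap_lits {α : Type} (n : ℕ) (f : ℕ × Bool → List α) :
    (litList n).flatMap (fun q => f (q.1.val, q.2)) = (rawLits n).flatMap f := by
  rw [← map_litList, List.flatMap_map]

theorem map_EL' (φ : Formula) (k : ℕ) : (EL' (toCNF φ) k).map endsD = rawE k φ := by
  unfold EL' rawE VL
  simp only [List.flatMap_append, List.flatMap_assoc, List.flatMap_map, List.map_append,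
    List.map_flatMap, map_A, map_D, map_P, map_Q]
  rw [← flatMap_lits, ← flatMap_lits]
  congr 1
  · congr 1
    · congr 1
      · congr 1
        funext q
        exact flatMap_finRange _ (fun i => rawA k (nv φ) φ.length (q.1.val, q.2) i)
      · congr 1
        funext q
        exact flatMap_finRange _ (fun i => rawD k φ (nv φ) φ.length (q.1.val, q.2) i)
    · rw [← flatMap_finRange]
      congr 1
      funext j
      exact flatMap_finRange _ (fun i => rawP k (nv φ) φ.length j.val i)
  · rw [← flatMap_finRange]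
    congr 1
    funext j
    exact flatMap_finRange _ (fun i => rawQ k (nv φ) φ.length j.val i)

end Compare

/-! ### Polynomial time -/

section PTime

variable {α : Type} [Enc α]

theorem pt_rsv {c w : α → ℕ} (hc : PT c) (hw : PT w) : PT (fun a => rsv (c a) (w a)) :=
  PT.map (f := fun a => List.range (c a)) (g := fun a _ => (w a, 0)) (PT.range hc)
    ((hw.comp PT.fst).pair (PT.const 0))

theorem pt_rtv {c w : α → ℕ} (hc : PT c) (hw : PT w) : PT (fun a => rtv (c a) (w a)) :=
  PT.map (f := fun a => List.range (c a)) (g := fun a _ => (w a, 1)) (PT.range hc)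
    ((hw.comp PT.fst).pair (PT.const 1))

theorem pt_ksub (k : ℕ) {c : α → ℕ} (hc : PT c) : PT (fun a => k - c a) :=
  PT.sub (PT.const k) hc

theorem pt_cA {m i : α → ℕ} (hm : PT m) (hi : PT i) : PT (fun a => cA (m a) (i a)) := by
  unfold cA
  exact PT.ite (PT.eq hi (hm.addConst 1)) (PT.const 0) (PT.const 1)

theorem pt_tapq {φ : α → Formula} {q : α → ℕ × Bool} {i : α → ℕ} (hφ : PT φ) (hq : PT q)
    (hi : PT i) : PT (fun a => tapq (φ a) (q a) (i a)) := by
  unfold tapq
  refine PT.and (PT.le (PT.const 2) hi) ?_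
  refine PT.any (f := fun a => clause (φ a) (i a - 2)) (p := fun a l => decide (q a = l)) ?_ ?_
  · exact pt_clause hφ (PT.sub hi (PT.const 2))
  · exact PT.eq (hq.comp PT.fst) PT.snd

theorem pt_cD {φ : α → Formula} {q : α → ℕ × Bool} {i : α → ℕ} (hφ : PT φ) (hq : PT q)
    (hi : PT i) : PT (fun a => cD (φ a) (q a) (i a)) := by
  unfold cD
  refine PT.ite (PT.eq hi (PT.const 0)) (PT.const 0) ?_
  exact PT.cond (PT.or (PT.eq hi (PT.const 1)) (pt_tapq hφ hq hi)) (PT.const 2) (PT.const 1)

theorem pt_vL {q : α → ℕ × Bool} (hq : PT q) : PT (fun a => vL (q a)) := by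
  unfold vL
  exact (PT.cond hq.snd' (PT.const 1) (PT.const 0)).add (hq.fst'.mulConst 2)

theorem pt_vA {m : α → ℕ} {q : α → ℕ × Bool} {i : α → ℕ} (hm : PT m) (hq : PT q)
    (hi : PT i) : PT (fun a => vA (m a) (q a) (i a)) := by
  unfold vA
  exact (PT.const 2).add (hi.add ((hm.addConst 2).mul (pt_vL hq)))

theorem pt_blk {n m : α → ℕ} (hn : PT n) (hm : PT m) :
    PT (fun a => n a * 2 * (m a + 2)) :=
  (hn.mul (PT.const 2)).mul (hm.addConst 2)

theorem pt_vD {n m : α → ℕ} {q : α → ℕ × Bool} {i : α → ℕ} (hn : PT n) (hm : PT m) (hq : PT q)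
    (hi : PT i) : PT (fun a => vD (n a) (m a) (q a) (i a)) := by
  unfold vD
  exact (PT.const 2).add ((pt_blk hn hm).add (hi.add ((hm.addConst 2).mul (pt_vL hq))))

theorem pt_vP {n m j i : α → ℕ} (hn : PT n) (hm : PT m) (hj : PT j)
    (hi : PT i) : PT (fun a => vP (n a) (m a) (j a) (i a)) := by
  unfold vP
  exact (PT.const 2).add ((pt_blk hn hm).add ((pt_blk hn hm).add
    (hi.add ((hn.addConst 1).mul hj))))

theorem pt_vQ {n m j i : α → ℕ} (hn : PT n) (hm : PT m) (hj : PT j)
    (hi : PT i) : PT (fun a => vQ (n a) (m a) (j a) (i a)) := by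
  unfold vQ
  exact (PT.const 2).add ((pt_blk hn hm).add ((pt_blk hn hm).add
    ((hm.mul (hn.addConst 1)).add (hi.add ((hn.addConst 1).mul hj)))))

theorem pt_vN {n m j : α → ℕ} {q : α → ℕ × Bool} (hn : PT n) (hm : PT m) (hj : PT j)
    (hq : PT q) : PT (fun a => vN (n a) (m a) (j a) (q a)) := by
  unfold vN
  exact PT.cond hq.snd' (pt_vQ hn hm hj hq.fst') (pt_vP hn hm hj (hq.fst'.addConst 1))

theorem pt_rawA (k : ℕ) {n m : α → ℕ} {q : α → ℕ × Bool} {i : α → ℕ} (hn : PT n) (hm : PT m)
    (hq : PT q) (hi : PT i) : PT (fun a => rawA k (n a) (m a) (q a) (i a)) := by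
  have h1 := pt_ksub k (pt_cA hm hi)
  have h2 := pt_vA hm hq hi
  have h3 := pt_vD hn hm hq hi
  have h4 := h2.pair (pt_vD hn hm hq (hi.addConst 1))
  unfold rawA
  refine ((pt_rsv h1 h2).append (pt_rtv h1 h2)).append ((h3.pair h2).cons ?_)
  exact PT.ite (PT.lt hi (hm.addConst 1)) (h4.cons (h4.cons (PT.const []))) (PT.const [])

theorem pt_rawD (k : ℕ) {φ : α → Formula} {n m : α → ℕ} {q : α → ℕ × Bool} {i : α → ℕ}
    (hφ : PT φ) (hn : PT n) (hm : PT m) (hq : PT q) (hi : PT i) :
    PT (fun a => rawD k (φ a) (n a) (m a) (q a) (i a)) := by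
  have h1 := pt_ksub k (pt_cD hφ hq hi)
  have h3 := pt_vD hn hm hq hi
  have h4 := (pt_vD hn hm (hq.fst'.pair (PT.const true)) (PT.const 1)).pair
    (pt_vD hn hm (hq.fst'.pair (PT.const false)) (PT.const 1))
  have h5 := h3.pair (pt_vN hn hm (PT.sub hi (PT.const 2)) hq)
  unfold rawD
  refine ((pt_rsv h1 h3).append (pt_rtv h1 h3)).append (PT.append ?_ ?_)
  · exact PT.cond (PT.and (PT.eq hi (PT.const 1)) hq.snd') (h4.cons (PT.const [])) (PT.const [])
  · exact PT.cond (pt_tapq hφ hq hi) (h5.cons (PT.const [])) (PT.const [])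

theorem pt_rawP (k : ℕ) {n m j i : α → ℕ} (hn : PT n) (hm : PT m) (hj : PT j) (hi : PT i) :
    PT (fun a => rawP k (n a) (m a) (j a) (i a)) := by
  have h1 := pt_vP hn hm hj hi
  have h2 := pt_vQ hn hm hj hi
  have h3 : PT (fun a => if i a = 0 then 0 else 1) :=
    PT.ite (PT.eq hi (PT.const 0)) (PT.const 0) (PT.const 1)
  unfold rawP
  exact ((pt_rsv (PT.const (k - 1)) h1).append (pt_rtv (pt_ksub k h3) h1)).append
    ((h1.pair h2).cons (PT.const []))

theorem pt_rawQ (k : ℕ) {n m j i : α → ℕ} (hn : PT n) (hm : PT m) (hj : PT j) (hi : PT i) :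
    PT (fun a => rawQ k (n a) (m a) (j a) (i a)) := by
  have h1 := pt_vP hn hm hj (hi.addConst 1)
  have h2 := pt_vQ hn hm hj hi
  have h3 : PT (fun a => if i a = n a then 0 else 1) :=
    PT.ite (PT.eq hi hn) (PT.const 0) (PT.const 1)
  unfold rawQ
  exact ((pt_rsv (PT.const (k - 1)) h2).append (pt_rtv (pt_ksub k h3) h2)).append
    (PT.ite (PT.lt hi hn) ((h2.pair h1).cons (PT.const [])) (PT.const []))

theorem pt_rawE (k : ℕ) : PT (rawE k) := by
  have hn : PT nv := pt_nv
  have hm : PT (fun φ : Formula => φ.length) := PT.length PT.id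
  have h1 : PT (fun φ : Formula => (rawLits (nv φ)).flatMap
      (fun q => (List.range (φ.length + 2)).flatMap (fun i => rawA k (nv φ) φ.length q i))) := by
    refine PT.flatMap (f := fun φ : Formula => rawLits (nv φ))
      (g := fun φ q => (List.range (φ.length + 2)).flatMap
        (fun i => rawA k (nv φ) φ.length q i)) (pt_rawLits hn) ?_
    refine PT.flatMap (f := fun x : Formula × (ℕ × Bool) => List.range (x.1.length + 2))
      (g := fun x i => rawA k (nv x.1) x.1.length x.2 i)
      (PT.range ((hm.comp PT.fst).addConst 2)) ?_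
    exact pt_rawA k (hn.comp PT.fst.fst') (hm.comp PT.fst.fst') PT.fst.snd' PT.snd
  have h2 : PT (fun φ : Formula => (rawLits (nv φ)).flatMap
      (fun q => (List.range (φ.length + 2)).flatMap
        (fun i => rawD k φ (nv φ) φ.length q i))) := by
    refine PT.flatMap (f := fun φ : Formula => rawLits (nv φ))
      (g := fun φ q => (List.range (φ.length + 2)).flatMap
        (fun i => rawD k φ (nv φ) φ.length q i)) (pt_rawLits hn) ?_
    refine PT.flatMap (f := fun x : Formula × (ℕ × Bool) => List.range (x.1.length + 2))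
      (g := fun x i => rawD k x.1 (nv x.1) x.1.length x.2 i)
      (PT.range ((hm.comp PT.fst).addConst 2)) ?_
    exact pt_rawD k PT.fst.fst' (hn.comp PT.fst.fst') (hm.comp PT.fst.fst') PT.fst.snd' PT.snd
  have h3 : PT (fun φ : Formula => (List.range φ.length).flatMap
      (fun j => (List.range (nv φ + 1)).flatMap (fun i => rawP k (nv φ) φ.length j i))) := by
    refine PT.flatMap (f := fun φ : Formula => List.range φ.length)
      (g := fun φ j => (List.range (nv φ + 1)).flatMap
        (fun i => rawP k (nv φ) φ.length j i)) (PT.range hm) ?_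
    refine PT.flatMap (f := fun x : Formula × ℕ => List.range (nv x.1 + 1))
      (g := fun x i => rawP k (nv x.1) x.1.length x.2 i)
      (PT.range ((hn.comp PT.fst).addConst 1)) ?_
    exact pt_rawP k (hn.comp PT.fst.fst') (hm.comp PT.fst.fst') PT.fst.snd' PT.snd
  have h4 : PT (fun φ : Formula => (List.range φ.length).flatMap
      (fun j => (List.range (nv φ + 1)).flatMap (fun i => rawQ k (nv φ) φ.length j i))) := by
    refine PT.flatMap (f := fun φ : Formula => List.range φ.length)
      (g := fun φ j => (List.range (nv φ + 1)).flatMap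
        (fun i => rawQ k (nv φ) φ.length j i)) (PT.range hm) ?_
    refine PT.flatMap (f := fun x : Formula × ℕ => List.range (nv x.1 + 1))
      (g := fun x i => rawQ k (nv x.1) x.1.length x.2 i)
      (PT.range ((hn.comp PT.fst).addConst 1)) ?_
    exact pt_rawQ k (hn.comp PT.fst.fst') (hm.comp PT.fst.fst') PT.fst.snd' PT.snd
  unfold rawE
  exact ((h1.append h2).append h3).append h4

end PTime

/-- The reduction. -/
noncomputable def redD (k : ℕ) (φ : Formula) : Inst where
  n := NN (nv φ) φ.length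
  edges := (EL' (toCNF φ) k).map fun e =>
    (eV _ _ ((dgr (toCNF φ) k).fst e), eV _ _ ((dgr (toCNF φ) k).snd e))
  s := eV _ _ .s
  t := eV _ _ .t
  k := k

theorem redD_data (k : ℕ) (φ : Formula) :
    (redD k φ).data = (NN (nv φ) φ.length, rawE k φ, 0, 1, k) := by
  unfold Inst.data redD
  simp only [List.map_map, Prod.mk.injEq]
  refine ⟨trivial, ?_, eV_s, eV_t, trivial⟩
  rw [← map_EL']
  rfl

theorem pt_redD (k : ℕ) : PT (redD k) := by
  have hn : PT nv := pt_nv
  have hm : PT (fun φ : Formula => φ.length) := PT.length PT.id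
  have hN : PT (fun φ : Formula => NN (nv φ) φ.length) := by
    unfold NN
    exact (PT.const 2).add ((pt_blk hn hm).add ((pt_blk hn hm).add
      ((hm.mul (hn.addConst 1)).add (hm.mul (hn.addConst 1)))))
  have h : PT (fun φ : Formula => (NN (nv φ) φ.length, rawE k φ, 0, 1, k)) :=
    hN.pair ((pt_rawE k).pair ((PT.const 0).pair ((PT.const 1).pair (PT.const k))))
  obtain ⟨K, i1, i2, P, k₀, T, hT⟩ := h
  refine ⟨K, i1, i2, P, k₀, T, fun φ => ?_⟩
  have e : code (redD k φ) =
      code ((NN (nv φ) φ.length, rawE k φ, 0, 1, k) : ℕ × List (ℕ × ℕ) × ℕ × ℕ × ℕ) := by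
    rw [← redD_data]
    rfl
  rw [e]
  exact hT φ

theorem redD_yes {k : ℕ} (hk : 2 ≤ k) (φ : Formula) : φ.Sat ↔ (redD k φ).Yes := by
  classical
  have : Fintype (DE (toCNF φ) k) := Fintype.ofFinite _
  have h1 : AcycST (dgr (toCNF φ) k) .s .t k ↔ Ranked (ea (φ := toCNF φ)) eb
      (dS (toCNF φ)) (dT (toCNF φ)) := by
    refine acycST_iff_ranked (by omega) (fun w => ?_) (fun w => ?_)
    · have := dS_le (φ := toCNF φ) w
      omega
    · have := dT_le (φ := toCNF φ) w
      omega
  rw [sat_iff, sat_iff_ranked, ← h1]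
  exact (yes_iff (dgr (toCNF φ) k) .s .t k (eV _ _) (EL' (toCNF φ) k) mem_EL' length_EL').symm

end Pool.Agent.Lib.MP_5d404d_lc.Deg
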