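import Pool.Agent.Lib.MP_5d404d_lc.Deg.Graph

set_option autoImplicit false

/-!
# Satisfying assignments and rank functions
-/

namespace Pool.Agent.Lib.MP_5d404d_lc.Deg

variable {n m : ℕ} {φ : CNF n m}

theorem D_cases (i : Fin (m + 2)) : i = 0 ∨ i = 1 ∨ ∃ j : Fin m, i = ix2 j := by
  rcases Nat.lt_or_ge i.val 2 with h | h
  · rcases Nat.lt_or_ge i.val 1 with h1 | h1
    · exact Or.inl (Fin.ext (by rw [Fin.val_zero]; omega))
    · exact Or.inr (Or.inl (Fin.ext (by rw [Fin.val_one]; omega)))
  · refine Or.inr (Or.inr ⟨⟨i.val - 2, by omega⟩, Fin.ext ?_⟩)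
    simp only [ix2]
    omega

/-! ### Values of `dS`, `dT` -/

theorem dS_A (q : Fin n × Bool) (i : Fin (m + 1)) : dS φ (.A q i.castSucc) = 1 := by
  have := i.2
  simp only [dS, Fin.val_castSucc]
  rw [if_neg (by omega)]

theorem dT_A (q : Fin n × Bool) (i : Fin (m + 1)) : dT φ (.A q i.castSucc) = 1 := by
  have := i.2
  simp only [dT, Fin.val_castSucc]
  rw [if_neg (by omega)]

theorem dS_Alast (q : Fin n × Bool) : dS φ (.A q (Fin.last (m + 1))) = 0 := by
  simp [dS]

theorem dT_Alast (q : Fin n × Bool) : dT φ (.A q (Fin.last (m + 1))) = 0 := by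
  simp [dT]

theorem dS_D0 (q : Fin n × Bool) : dS φ (.D q 0) = 0 := by simp [dS]

theorem dT_D0 (q : Fin n × Bool) : dT φ (.D q 0) = 0 := by simp [dT]

theorem dS_D1 (q : Fin n × Bool) : dS φ (.D q 1) = 2 := by simp [dS]

theorem dT_D1 (q : Fin n × Bool) : dT φ (.D q 1) = 2 := by simp [dT]

theorem dS_Dt {q : Fin n × Bool} {j : Fin m} (h : q ∈ φ j) : dS φ (.D q (ix2 j)) = 2 := by
  simp only [dS]
  rw [if_neg (by simp [ix2]), if_pos (Or.inr (tap_ix2.2 h))]

theorem dT_Dt {q : Fin n × Bool} {j : Fin m} (h : q ∈ φ j) : dT φ (.D q (ix2 j)) = 2 := by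
  simp only [dT]
  rw [if_neg (by simp [ix2]), if_pos (Or.inr (tap_ix2.2 h))]

theorem dS_Du {q : Fin n × Bool} {j : Fin m} (h : q ∉ φ j) : dS φ (.D q (ix2 j)) = 1 := by
  simp only [dS]
  rw [if_neg (by simp [ix2]), if_neg]
  rintro (h1 | h1)
  · simp [ix2] at h1
  · exact h (tap_ix2.1 h1)

theorem dT_Du {q : Fin n × Bool} {j : Fin m} (h : q ∉ φ j) : dT φ (.D q (ix2 j)) = 1 := by
  simp only [dT]
  rw [if_neg (by simp [ix2]), if_neg]
  rintro (h1 | h1)
  · simp [ix2] at h1
  · exact h (tap_ix2.1 h1)

theorem dT_P0 (j : Fin m) : dT φ (.P j 0) = 0 := by simp [dT]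

theorem dT_P (j : Fin m) (i : Fin n) : dT φ (.P j i.succ) = 1 := by simp [dT]

theorem dT_Q (j : Fin m) (i : Fin n) : dT φ (.Q j i.castSucc) = 1 := by
  have := i.2
  simp only [dT, Fin.val_castSucc]
  rw [if_neg (by omega)]

theorem dT_Qlast (j : Fin m) : dT φ (.Q j (Fin.last n)) = 0 := by simp [dT]

/-! ### Degrees -/

theorem exists_inc (w : DW n m) : ∃ l, IncAt (ea (φ := φ)) eb w l ∧
    dS φ w + dT φ w ≤ l.length ∧ l.length ≤ dS φ w + dT φ w + 1 := by
  rcases w with ⟨q, i⟩ | ⟨q, i⟩ | ⟨j, i⟩ | ⟨j, i⟩
  · rcases Fin.eq_castSucc_or_eq_last i with ⟨i', rfl⟩ | rfl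
    · exact ⟨_, inc_A q i', by simp [dS_A, dT_A], by simp [dS_A, dT_A]⟩
    · exact ⟨_, inc_Alast q, by simp [dS_Alast, dT_Alast], by simp [dS_Alast, dT_Alast]⟩
  · rcases D_cases i with rfl | rfl | ⟨j, rfl⟩
    · exact ⟨_, inc_D0 q, by simp [dS_D0, dT_D0], by simp [dS_D0, dT_D0]⟩
    · exact ⟨_, inc_D1 q.1 q.2, by simp [dS_D1, dT_D1], by simp [dS_D1, dT_D1]⟩
    · by_cases h : q ∈ φ j
      · exact ⟨_, inc_Dt q j h, by simp [dS_Dt h, dT_Dt h], by simp [dS_Dt h, dT_Dt h]⟩
      · exact ⟨_, inc_Du q j h, by simp [dS_Du h, dT_Du h], by simp [dS_Du h, dT_Du h]⟩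
  · rcases Fin.eq_zero_or_eq_succ i with rfl | ⟨i', rfl⟩
    · exact ⟨_, inc_P0 j, by simp [dS, dT_P0], by simp [dS, dT_P0]⟩
    · by_cases h : (i', false) ∈ φ j
      · exact ⟨_, inc_Pt j i' h, by simp [dS, dT_P], by simp [dS, dT_P]⟩
      · exact ⟨_, inc_Pu j i' h, by simp [dS, dT_P], by simp [dS, dT_P]⟩
  · rcases Fin.eq_castSucc_or_eq_last i with ⟨i', rfl⟩ | rfl
    · by_cases h : (i', true) ∈ φ j
      · exact ⟨_, inc_Qt j i' h, by simp [dS, dT_Q], by simp [dS, dT_Q]⟩
      · exact ⟨_, inc_Qu j i' h, by simp [dS, dT_Q], by simp [dS, dT_Q]⟩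
    · exact ⟨_, inc_Qlast j, by simp [dS, dT_Qlast], by simp [dS, dT_Qlast]⟩

/-! ### From a rank function to an assignment -/

section Sound

variable {r : DW n m → ℕ}

private theorem sat_A (hr1 : ∀ f : DF φ, r (ea f) ≠ r (eb f))
    (hr2 : ∀ w, dS φ w ≤ (InS (ea (φ := φ)) eb r w).ncard ∧
      dT φ w ≤ (OutS (ea (φ := φ)) eb r w).ncard) (q : Fin n × Bool) (i : Fin (m + 1)) :
    r (.A q i.castSucc) < r (.D q i.succ) ↔ r (.D q i.castSucc) < r (.A q i.castSucc) := by
  have h1 := hr1 (.sg q i.castSucc)
  have h2 := hr1 (.db q i true)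
  have h3 := hr2 (.A q i.castSucc)
  rw [(inc_A q i).ncard_in, (inc_A q i).ncard_out, dS_A, dT_A] at h3
  simp only [List.countP_cons, List.countP_nil, decide_eq_true_eq] at h3
  simp only [ea, eb] at h1 h2
  obtain ⟨h3, h4⟩ := h3
  split_ifs at h3 h4 <;> omega

private theorem sat_D (hr1 : ∀ f : DF φ, r (ea f) ≠ r (eb f))
    (hr2 : ∀ w, dS φ w ≤ (InS (ea (φ := φ)) eb r w).ncard ∧
      dT φ w ≤ (OutS (ea (φ := φ)) eb r w).ncard) (q : Fin n × Bool) (i : Fin (m + 1)) :
    r (.A q i.castSucc) < r (.D q i.succ) ↔ r (.D q i.succ) < r (.A q i.succ) := by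
  have h1 := hr1 (.sg q i.succ)
  have h2 := hr1 (.db q i true)
  have h3 := hr2 (.D q i.succ)
  simp only [ea, eb] at h1 h2
  rcases Fin.eq_zero_or_eq_succ i with rfl | ⟨j, rfl⟩
  · have e : (0 : Fin (m + 1)).succ = 1 := rfl
    have e' : (0 : Fin (m + 1)).castSucc = 0 := rfl
    rw [e] at h1 h2 h3 ⊢
    rw [e'] at h2 ⊢
    rw [(inc_D1 q.1 q.2).ncard_in, (inc_D1 q.1 q.2).ncard_out, dS_D1, dT_D1] at h3
    simp only [List.countP_cons, List.countP_nil, decide_eq_true_eq, Prod.mk.eta] at h3
    obtain ⟨h3, h4⟩ := h3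
    split_ifs at h3 h4 <;> omega
  · have e : j.succ.succ = ix2 j := Fin.ext (by simp [ix2])
    rw [e] at h1 h2 h3 ⊢
    by_cases hq : q ∈ φ j
    · rw [(inc_Dt q j hq).ncard_in, (inc_Dt q j hq).ncard_out, dS_Dt hq, dT_Dt hq] at h3
      simp only [List.countP_cons, List.countP_nil, decide_eq_true_eq] at h3
      obtain ⟨h3, h4⟩ := h3
      split_ifs at h3 h4 <;> omega
    · rw [(inc_Du q j hq).ncard_in, (inc_Du q j hq).ncard_out, dS_Du hq, dT_Du hq] at h3
      simp only [List.countP_cons, List.countP_nil, decide_eq_true_eq] at h3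
      obtain ⟨h3, h4⟩ := h3
      split_ifs at h3 h4 <;> omega

private theorem sat_line (hr1 : ∀ f : DF φ, r (ea f) ≠ r (eb f))
    (hr2 : ∀ w, dS φ w ≤ (InS (ea (φ := φ)) eb r w).ncard ∧
      dT φ w ≤ (OutS (ea (φ := φ)) eb r w).ncard) (q : Fin n × Bool) (i : Fin (m + 1)) :
    r (.A q i.castSucc) < r (.D q i.succ) ↔ r (.A q 0) < r (.D q 1) := by
  induction i using Fin.induction with
  | zero => exact Iff.rfl
  | succ i ih =>
    rw [sat_A hr1 hr2, ← ih, sat_D hr1 hr2 q i.castSucc]
    exact Iff.rfl

private theorem sat_tap (hr1 : ∀ f : DF φ, r (ea f) ≠ r (eb f))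
    (hr2 : ∀ w, dS φ w ≤ (InS (ea (φ := φ)) eb r w).ncard ∧
      dT φ w ≤ (OutS (ea (φ := φ)) eb r w).ncard) (q : Fin n × Bool) (j : Fin m)
    (hq : q ∈ φ j) : r (.D q (ix2 j)) < r (nd j q) ↔ r (.A q 0) < r (.D q 1) := by
  rw [← sat_line hr1 hr2 q j.succ]
  have e : j.succ.succ = ix2 j := Fin.ext (by simp [ix2])
  have h1 := hr1 (.sg q j.succ.succ)
  have h2 := hr1 (.db q j.succ true)
  have h3 := hr2 (.D q (ix2 j))
  have h5 := hr1 (.tp j ⟨q, hq⟩)
  simp only [ea, eb] at h1 h2 h5
  rw [e] at h1 h2 ⊢
  rw [(inc_Dt q j hq).ncard_in, (inc_Dt q j hq).ncard_out, dS_Dt hq, dT_Dt hq] at h3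
  simp only [List.countP_cons, List.countP_nil, decide_eq_true_eq] at h3
  obtain ⟨h3, h4⟩ := h3
  split_ifs at h3 h4 <;> omega

private theorem sat_link (hr1 : ∀ f : DF φ, r (ea f) ≠ r (eb f))
    (hr2 : ∀ w, dS φ w ≤ (InS (ea (φ := φ)) eb r w).ncard ∧
      dT φ w ≤ (OutS (ea (φ := φ)) eb r w).ncard) (i : Fin n) (b : Bool) :
    r (.A (i, b) 0) < r (.D (i, b) 1) → r (.D (i, b) 1) < r (.D (i, !b) 1) := by
  intro h
  have h2 := hr1 (.db (i, b) 0 true)
  have h3 := hr2 (.D (i, b) 1)
  rw [(inc_D1 i b).ncard_in, (inc_D1 i b).ncard_out, dS_D1, dT_D1] at h3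
  simp only [List.countP_cons, List.countP_nil, decide_eq_true_eq] at h3
  obtain ⟨h3, h4⟩ := h3
  split_ifs at h3 h4 <;> omega

private theorem sat_clause (hr1 : ∀ f : DF φ, r (ea f) ≠ r (eb f))
    (hr2 : ∀ w, dS φ w ≤ (InS (ea (φ := φ)) eb r w).ncard ∧
      dT φ w ≤ (OutS (ea (φ := φ)) eb r w).ncard) (j : Fin m) :
    ∃ q ∈ φ j, r (.A q 0) < r (.D q 1) := by
  obtain ⟨⟨b, i⟩, hmin⟩ := Finite.exists_min
    (fun x : Bool × Fin (n + 1) => r (if x.1 then .Q j x.2 else .P j x.2))
  have hP : ∀ i', r (if b then .Q j i else .P j i) ≤ r (.P j i') := fun i' => hmin (false, i')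
  have hQ : ∀ i', r (if b then .Q j i else .P j i) ≤ r (.Q j i') := fun i' => hmin (true, i')
  cases b with
  | false =>
    simp only [Bool.false_eq_true, if_false] at hP hQ
    rcases Fin.eq_zero_or_eq_succ i with rfl | ⟨i', rfl⟩
    · exfalso
      have h3 := (hr2 (.P j 0)).1
      have h4 := hQ 0
      rw [(inc_P0 j).ncard_in] at h3
      simp only [List.countP_cons, List.countP_nil, decide_eq_true_eq, dS] at h3
      split_ifs at h3 <;> omega
    · have h3 := (hr2 (.P j i'.succ)).1
      have h4 := hQ i'.castSucc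
      have h5 := hQ i'.succ
      by_cases h : (i', false) ∈ φ j
      · refine ⟨_, h, ?_⟩
        rw [← sat_tap hr1 hr2 _ j h]
        rw [(inc_Pt j i' h).ncard_in] at h3
        simp only [List.countP_cons, List.countP_nil, decide_eq_true_eq, dS] at h3
        have e : nd j (i', false) = .P j i'.succ := rfl
        rw [e]
        split_ifs at h3 <;> omega
      · exfalso
        rw [(inc_Pu j i' h).ncard_in] at h3
        simp only [List.countP_cons, List.countP_nil, decide_eq_true_eq, dS] at h3
        split_ifs at h3 <;> omega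
  | true =>
    simp only [if_true] at hP hQ
    rcases Fin.eq_castSucc_or_eq_last i with ⟨i', rfl⟩ | rfl
    · have h3 := (hr2 (.Q j i'.castSucc)).1
      have h4 := hP i'.castSucc
      have h5 := hP i'.succ
      by_cases h : (i', true) ∈ φ j
      · refine ⟨_, h, ?_⟩
        rw [← sat_tap hr1 hr2 _ j h]
        rw [(inc_Qt j i' h).ncard_in] at h3
        simp only [List.countP_cons, List.countP_nil, decide_eq_true_eq, dS] at h3
        have e : nd j (i', true) = .Q j i'.castSucc := rfl
        rw [e]
        split_ifs at h3 <;> omega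
      · exfalso
        rw [(inc_Qu j i' h).ncard_in] at h3
        simp only [List.countP_cons, List.countP_nil, decide_eq_true_eq, dS] at h3
        split_ifs at h3 <;> omega
    · exfalso
      have h3 := (hr2 (.Q j (Fin.last n))).1
      have h4 := hP (Fin.last n)
      rw [(inc_Qlast j).ncard_in] at h3
      simp only [List.countP_cons, List.countP_nil, decide_eq_true_eq, dS] at h3
      split_ifs at h3 <;> omega

theorem satisfiable_of_ranked (h : Ranked (ea (φ := φ)) eb (dS φ) (dT φ)) : Satisfiable φ := by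
  classical
  obtain ⟨r, hr1, hr2⟩ := h
  refine ⟨fun i => decide (r (.A (i, true) 0) < r (.D (i, true) 1)), fun j => ?_⟩
  obtain ⟨⟨i, b⟩, hq, hlt⟩ := sat_clause hr1 hr2 j
  refine ⟨(i, b), hq, ?_⟩
  cases b with
  | true => simpa using hlt
  | false =>
    simp only [decide_eq_false_iff_not]
    intro h1
    have h2 := sat_link hr1 hr2 i true h1
    have h3 := sat_link hr1 hr2 i false hlt
    simp only [Bool.not_true, Bool.not_false] at h2 h3
    omega

end Sound

/-! ### From an assignment to a rank function -/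

section Complete

/-- position of a node in the path of a clause -/
def pos (q : Fin n × Bool) : ℕ := if q.2 then 2 * q.1.val + 1 else 2 * q.1.val + 2

/-- the rank function of an assignment `τ`, `c j` is a true literal of the clause `j` -/
def rkf (τ : Fin n → Bool) (c : Fin m → Fin n × Bool) : DW n m → ℕ
  | .A q i => if τ q.1 = q.2 then 2 * i.val + 1 else 4 * m + 2 * n + 20 - (2 * i.val + 1)
  | .D q i => if τ q.1 = q.2 then 2 * i.val else 4 * m + 2 * n + 20 - 2 * i.val
  | .P j i => 2 * m + 5 + ((2 * i.val - pos (c j)) + (pos (c j) - 2 * i.val))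
  | .Q j i => 2 * m + 5 + ((2 * i.val + 1 - pos (c j)) + (pos (c j) - (2 * i.val + 1)))

private theorem pos_bd (q : Fin n × Bool) : 1 ≤ pos q ∧ pos q ≤ 2 * n := by
  have := q.1.2
  unfold pos
  split_ifs <;> omega

private theorem rkf_nd (τ : Fin n → Bool) (c : Fin m → Fin n × Bool) (j : Fin m)
    (q : Fin n × Bool) : rkf τ c (nd j q) =
      2 * m + 5 + ((pos q - pos (c j)) + (pos (c j) - pos q)) := by
  unfold nd
  rcases q with ⟨i, b⟩
  cases b
  · simp only [Bool.false_eq_true, if_false, rkf, pos, Fin.val_succ]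
    omega
  · simp only [if_true, rkf, pos, Fin.val_castSucc]

theorem ranked_of_satisfiable (h : Satisfiable φ) : Ranked (ea (φ := φ)) eb (dS φ) (dT φ) := by
  classical
  obtain ⟨τ, hτ⟩ := h
  choose c hc1 hc2 using hτ
  have hp : ∀ j, 1 ≤ pos (c j) ∧ pos (c j) ≤ 2 * n := fun j => pos_bd _
  refine ⟨rkf τ c, ?_, ?_⟩
  · intro f
    cases f with
    | sg q i =>
      have := i.2
      simp only [ea, eb, rkf]
      split_ifs <;> omega
    | db q i b =>
      have := i.2
      simp only [ea, eb, rkf, Fin.val_castSucc, Fin.val_succ]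
      split_ifs <;> omega
    | lk i =>
      simp only [ea, eb, rkf, Fin.val_one]
      cases τ i <;> simp <;> omega
    | tp j q =>
      have h1 := j.2
      have h2 := hp j
      have h3 := pos_bd q.1
      simp only [ea, eb, rkf_nd]
      simp only [rkf, ix2]
      split_ifs <;> omega
    | pq j i =>
      simp only [ea, eb, rkf]
      omega
    | qp j i =>
      simp only [ea, eb, rkf, Fin.val_castSucc, Fin.val_succ]
      omega
  · intro w
    rcases w with ⟨q, i⟩ | ⟨q, i⟩ | ⟨j, i⟩ | ⟨j, i⟩
    · rcases Fin.eq_castSucc_or_eq_last i with ⟨i', rfl⟩ | rfl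
      · rw [(inc_A q i').ncard_in, (inc_A q i').ncard_out, dS_A, dT_A]
        have := i'.2
        simp only [List.countP_cons, List.countP_nil, decide_eq_true_eq, rkf, Fin.val_castSucc,
          Fin.val_succ]
        constructor <;> split_ifs <;> omega
      · rw [dS_Alast, dT_Alast]
        exact ⟨Nat.zero_le _, Nat.zero_le _⟩
    · rcases D_cases i with rfl | rfl | ⟨j, rfl⟩
      · rw [dS_D0, dT_D0]
        exact ⟨Nat.zero_le _, Nat.zero_le _⟩
      · obtain ⟨a, b⟩ := q
        rw [(inc_D1 a b).ncard_in, (inc_D1 a b).ncard_out, dS_D1, dT_D1]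
        simp only [List.countP_cons, List.countP_nil, decide_eq_true_eq, rkf, Fin.val_one,
          Fin.val_zero]
        have e : (τ a = !b) ↔ ¬ τ a = b := by cases τ a <;> cases b <;> simp
        by_cases h1 : τ a = b
        · have h2 : ¬ τ a = !b := fun h => (e.1 h) h1
          simp only [if_pos h1, if_neg h2]
          constructor <;> split_ifs <;> omega
        · have h2 : τ a = !b := e.2 h1
          simp only [if_neg h1, if_pos h2]
          constructor <;> split_ifs <;> omega
      · have h1 := j.2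
        have h2 := hp j
        have h3 := pos_bd q
        by_cases h : q ∈ φ j
        · rw [(inc_Dt q j h).ncard_in, (inc_Dt q j h).ncard_out, dS_Dt h, dT_Dt h]
          simp only [List.countP_cons, List.countP_nil, decide_eq_true_eq, rkf_nd]
          simp only [rkf, ix2, Fin.val_castSucc, Fin.val_succ]
          by_cases h4 : τ q.1 = q.2
          · simp only [if_pos h4]
            constructor <;> split_ifs <;> omega
          · simp only [if_neg h4]
            constructor <;> split_ifs <;> omega
        · rw [(inc_Du q j h).ncard_in, (inc_Du q j h).ncard_out, dS_Du h, dT_Du h]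
          simp only [List.countP_cons, List.countP_nil, decide_eq_true_eq, rkf, ix2,
            Fin.val_castSucc, Fin.val_succ]
          by_cases h4 : τ q.1 = q.2
          · simp only [if_pos h4]
            constructor <;> split_ifs <;> omega
          · simp only [if_neg h4]
            constructor <;> split_ifs <;> omega
    · have h2 := hp j
      rcases Fin.eq_zero_or_eq_succ i with rfl | ⟨i', rfl⟩
      · rw [(inc_P0 j).ncard_in, (inc_P0 j).ncard_out, dT_P0]
        simp only [List.countP_cons, List.countP_nil, decide_eq_true_eq, rkf, dS, Fin.val_zero]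
        refine ⟨?_, Nat.zero_le _⟩
        split_ifs <;> omega
      · by_cases h : (i', false) ∈ φ j
        · rw [(inc_Pt j i' h).ncard_in, (inc_Pt j i' h).ncard_out, dT_P]
          simp only [List.countP_cons, List.countP_nil, decide_eq_true_eq, rkf, dS, ix2,
            Fin.val_castSucc, Fin.val_succ]
          by_cases h4 : pos (c j) = 2 * i'.val + 2
          · -- the chosen node: the literal is true
            have h5 : c j = (i', false) := by
              unfold pos at h4
              split_ifs at h4 with h6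
              · omega
              · exact Prod.ext (Fin.ext (by show (c j).1.val = i'.val; omega)) (by simpa using h6)
            have h6 : τ i' = false := by
              have := hc2 j
              rw [h5] at this
              exact this
            rw [h4]
            simp only [h6, if_true]
            have := j.2
            constructor <;> split_ifs <;> omega
          · constructor <;> split_ifs <;> omega
        · have h4 : pos (c j) ≠ 2 * i'.val + 2 := by
            intro h4
            have h5 : c j = (i', false) := by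
              unfold pos at h4
              split_ifs at h4 with h6
              · omega
              · exact Prod.ext (Fin.ext (by show (c j).1.val = i'.val; omega)) (by simpa using h6)
            rw [← h5] at h
            exact h (hc1 j)
          rw [(inc_Pu j i' h).ncard_in, (inc_Pu j i' h).ncard_out, dT_P]
          simp only [List.countP_cons, List.countP_nil, decide_eq_true_eq, rkf, dS,
            Fin.val_castSucc, Fin.val_succ]
          constructor <;> split_ifs <;> omega
    · have h2 := hp j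
      rcases Fin.eq_castSucc_or_eq_last i with ⟨i', rfl⟩ | rfl
      · by_cases h : (i', true) ∈ φ j
        · rw [(inc_Qt j i' h).ncard_in, (inc_Qt j i' h).ncard_out, dT_Q]
          simp only [List.countP_cons, List.countP_nil, decide_eq_true_eq, rkf, dS, ix2,
            Fin.val_castSucc, Fin.val_succ]
          by_cases h4 : pos (c j) = 2 * i'.val + 1
          · have h5 : c j = (i', true) := by
              unfold pos at h4
              split_ifs at h4 with h6
              · exact Prod.ext (Fin.ext (by show (c j).1.val = i'.val; omega)) h6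
              · omega
            have h6 : τ i' = true := by
              have := hc2 j
              rw [h5] at this
              exact this
            rw [h4]
            simp only [h6, if_true]
            have := j.2
            constructor <;> split_ifs <;> omega
          · constructor <;> split_ifs <;> omega
        · have h4 : pos (c j) ≠ 2 * i'.val + 1 := by
            intro h4
            have h5 : c j = (i', true) := by
              unfold pos at h4
              split_ifs at h4 with h6
              · exact Prod.ext (Fin.ext (by show (c j).1.val = i'.val; omega)) h6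
              · omega
            rw [← h5] at h
            exact h (hc1 j)
          rw [(inc_Qu j i' h).ncard_in, (inc_Qu j i' h).ncard_out, dT_Q]
          simp only [List.countP_cons, List.countP_nil, decide_eq_true_eq, rkf, dS,
            Fin.val_castSucc, Fin.val_succ]
          constructor <;> split_ifs <;> omega
      · rw [(inc_Qlast j).ncard_in, (inc_Qlast j).ncard_out, dT_Qlast]
        simp only [List.countP_cons, List.countP_nil, decide_eq_true_eq, rkf, dS, Fin.val_last]
        refine ⟨?_, Nat.zero_le _⟩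
        split_ifs <;> omega

end Complete

/-- **The reduction, in terms of rank functions.** -/
theorem sat_iff_ranked : Satisfiable φ ↔ Ranked (ea (φ := φ)) eb (dS φ) (dT φ) :=
  ⟨ranked_of_satisfiable, satisfiable_of_ranked⟩

end Pool.Agent.Lib.MP_5d404d_lc.Deg
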